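import Pool.Agent.Helper7.Types
import Pool.Agent.Helper7.CMTypes
import Pool.Agent.Helper7.AFT.Defs

/-!
Simple factors of an abelian variety, real multiplication, complex multiplication by an abelian
number field.
-/

namespace Pool.Agent.GPC

/-- `B` is a simple factor of `X`: it is simple and there is a non-zero homomorphism `B → X`
(tensor `ℚ`). -/
def AbVar.IsSimpleFactor (B X : AbVar) : Prop :=
  B.IsSimple ∧ ∃ f, B.IsMor X f ∧ ∃ v, f v ≠ 0

/-- `B` has complex multiplication by the number field `K`, which is an abelian extension of `ℚ`: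
`K` acts on `H_1(B)` through endomorphisms of `B` (tensor `ℚ`) and `[K : ℚ] = 2 dim B`. -/
structure AbVar.IsAbelianCM (B : AbVar) (K : Type) [Field K] [NumberField K]
    (ρ : K → B.H1 → B.H1) : Prop where
  abelian : IsAbelianGalois ℚ K
  degree : Module.finrank ℚ K = 2 * B.g
  one : ∀ v, ρ 1 v = v
  mul : ∀ x y v, ρ (x * y) v = ρ x (ρ y v)
  add : ∀ x y v, ρ (x + y) v = ρ x v + ρ y v
  endo : ∀ x, B.IsEnd (ρ x)

end Pool.Agent.GPC
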