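import Pool.Agent.Helper7.CP.Per
import Pool.Agent.GAM.StC

/-!
The lattice, the CM type and the exponents of an abelian variety with complex multiplication.
-/

open scoped ComplexConjugate

namespace Pool.Agent.Helper8.E.CP

open Module NumberField Pool.Agent.Helper7 Pool.Agent.Helper24 Pool.Agent.GPC Matrix
open Pool.Agent.Helper8.E

set_option linter.unusedSectionVars false

variable {A : AbVar} {K : Type} [Field K] [NumberField K] (F : UF (pData A) K 1)

/-- complex conjugation as ring homomorphism -/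
noncomputable def ccH : K →+* K where
  toFun := F.cc
  map_one' := by
    have σ : K →+* ℂ := Classical.choice (inferInstance : Nonempty (K →+* ℂ))
    apply σ.injective
    rw [F.hcc, map_one, map_one]
  map_mul' x y := by
    have σ : K →+* ℂ := Classical.choice (inferInstance : Nonempty (K →+* ℂ))
    apply σ.injective
    rw [F.hcc, map_mul, map_mul, map_mul, F.hcc, F.hcc]
  map_zero' := by
    have σ : K →+* ℂ := Classical.choice (inferInstance : Nonempty (K →+* ℂ))
    apply σ.injective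
    rw [F.hcc, map_zero, map_zero]
  map_add' x y := by
    have σ : K →+* ℂ := Classical.choice (inferInstance : Nonempty (K →+* ℂ))
    apply σ.injective
    rw [F.hcc, map_add, map_add, map_add, F.hcc, F.hcc]

lemma comp_ccH (σ : K →+* ℂ) : σ.comp (ccH F) = ComplexEmbedding.conjugate σ := by
  refine RingHom.ext fun x => ?_
  rw [ComplexEmbedding.conjugate_coe_eq]
  exact F.hcc σ x

lemma cmf_ccH (h : ∀ σ : K →+* ℂ, ComplexEmbedding.conjugate σ ≠ σ) : GAM.CMF K (ccH F) where
  cc σ x := (F.hcc σ x).symm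
  ne hc := by
    have σ : K →+* ℂ := Classical.choice (inferInstance : Nonempty (K →+* ℂ))
    apply h σ
    rw [← comp_ccH F, hc]
    rfl

lemma hod_comm' (x : K) (v : A.H1) : hod A (F.ρ x v) = F.ρ x (hod A v) :=
  (hod_comm (F.ρ x) (F.hρ x) v).symm

lemma hod_e (σ : K →+* ℂ) : hod A (F.e σ 0) = tw F σ (hod A) • F.e σ 0 :=
  act_one F _ (fun x v => hod_comm' F x v) σ

open Classical in
lemma tw_hod (σ : K →+* ℂ) : tw F σ (hod A) = if A.IsFil (F.e σ 0) then 0 else 1 := by
  have h0 := e_ne F σ 0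
  split_ifs with h
  · have h1 := hod_e F σ
    rw [(hod_fil A).mp h] at h1
    exact (smul_eq_zero.mp h1.symm).resolve_right h0
  · have h1 := hod_e F σ
    have h2 := hod_idem A (F.e σ 0)
    rw [h1, map_smul, h1, smul_smul] at h2
    have h3 : (tw F σ (hod A) * tw F σ (hod A) - tw F σ (hod A)) • F.e σ 0 = 0 := by
      rw [sub_smul, h2, sub_self]
    have h4 := (smul_eq_zero.mp h3).resolve_right h0
    have h5 : tw F σ (hod A) ≠ 0 := by
      intro h6
      apply h
      rw [hod_fil, h1, h6, zero_smul]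
    apply mul_left_cancel₀ h5
    linear_combination h4

/-- the CM type -/
abbrev CType : Type := {σ : K →+* ℂ // ¬ A.IsFil (F.e σ 0)}

lemma fil_conj (σ : K →+* ℂ) : A.IsFil (F.e (ComplexEmbedding.conjugate σ) 0) ↔
    ¬ A.IsFil (F.e σ 0) := by
  classical
  have h1 := tw_conj F one_pos (hod A) (fun x v => hod_comm' F x v) 1
    (fun u v => by rw [psi_hod, one_mul]) σ
  rw [tw_hod, tw_hod] at h1
  by_cases h : A.IsFil (F.e σ 0)
  · rw [if_pos h, zero_add] at h1
    constructor
    · intro h2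
      rw [if_pos h2] at h1
      exact absurd h1 zero_ne_one
    · intro h2; exact absurd h h2
  · rw [if_neg h] at h1
    constructor
    · intro _; exact h
    · intro _
      by_contra h2
      rw [if_neg h2] at h1
      norm_num at h1

lemma cmt : GAM.CMT K (ccH F) (fun s : CType F => s.1) := by
  constructor
  · rintro (⟨s, hs⟩ | ⟨s, hs⟩) (⟨t, ht⟩ | ⟨t, ht⟩) h
    · simp only [Sum.elim_inl] at h
      subst h; rfl
    · simp only [Sum.elim_inl, Sum.elim_inr, comp_ccH] at h
      subst h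
      exact absurd ((fil_conj F t).mpr ht) hs
    · simp only [Sum.elim_inl, Sum.elim_inr, comp_ccH] at h
      subst h
      exact absurd ((fil_conj F s).mpr hs) ht
    · simp only [Sum.elim_inr, comp_ccH] at h
      have h2 := congrArg ComplexEmbedding.conjugate h
      have h1 : s = t := (star_involutive s).symm.trans (h2.trans (star_involutive t))
      subst h1; rfl
  · intro σ
    by_cases h : A.IsFil (F.e σ 0)
    · refine ⟨Sum.inr ⟨ComplexEmbedding.conjugate σ, fun h1 => ?_⟩, ?_⟩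
      · exact ((fil_conj F σ).mp h1) h
      · simp only [Sum.elim_inr, comp_ccH]
        exact star_involutive σ
    · exact ⟨Sum.inl ⟨σ, h⟩, rfl⟩

variable {p : (K →+* ℂ) → ℂ} {ε : (K →+* ℂ) → A.H1} (hp : Per F p ε)

/-- the images of the eigenvectors in the Lie algebra -/
def TM (ε : (K →+* ℂ) → A.H1) : Matrix (Fin A.g) (CType F) ℂ := Matrix.of fun a s => ε s.1 (.inl a)

lemma sum_ctype [Fintype (CType F)] (g : (K →+* ℂ) → ℂ) (hg : ∀ σ, A.IsFil (F.e σ 0) → g σ = 0) :
    ∑ s : CType F, g s.1 = ∑ σ, g σ := by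
  classical
  rw [← Finset.sum_subtype (Finset.univ.filter (fun σ => ¬ A.IsFil (F.e σ 0)))
    (fun x => by simp) g, Finset.sum_filter]
  refine Finset.sum_congr rfl fun σ _ => ?_
  split_ifs with h
  · exact (hg σ h).symm
  · rfl

include hp in
/-- coordinates in the Lie algebra -/
lemma TM_mulVec [Fintype (CType F)] (y : (K →+* ℂ) → ℂ) (a : Fin A.g) :
    (TM F ε).mulVec (fun s => p s.1 * y s.1) a = (∑ σ, y σ • F.e σ 0) (.inl a) := by
  have h1 : (∑ σ, y σ • F.e σ 0) (Sum.inl a) = ∑ σ, y σ * F.e σ 0 (Sum.inl a) := by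
    rw [Finset.sum_apply]
    rfl
  rw [h1, ← sum_ctype F (fun σ => y σ * F.e σ 0 (Sum.inl a)) (fun σ h => by rw [h a, mul_zero])]
  show ∑ s : CType F, ε s.1 (.inl a) * (p s.1 * y s.1) = _
  refine Finset.sum_congr rfl fun s _ => ?_
  rw [hp.eq]
  show _ = y s.1 * (p s.1 * ε s.1 (.inl a))
  ring

include hp in
lemma TM_inj [Fintype (CType F)] (v : CType F → ℂ) (hv : (TM F ε).mulVec v = 0) : v = 0 := by
  classical
  let y : (K →+* ℂ) → ℂ := fun σ => if h : ¬ A.IsFil (F.e σ 0) then (p σ)⁻¹ * v ⟨σ, h⟩ else 0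
  have hy : ∀ s : CType F, v s = p s.1 * y s.1 := by
    intro s
    have h1 : y s.1 = (p s.1)⁻¹ * v s := dif_pos s.2
    rw [h1, mul_inv_cancel_left₀ (hp.ne _)]
  have h1 : A.IsFil (∑ σ, y σ • F.e σ 0) := by
    intro a
    rw [← TM_mulVec F hp, ← show v = fun s => p s.1 * y s.1 from funext hy, hv]
    rfl
  have h2 := (hod_fil A).mp h1
  funext s
  have h3 := congrArg (F.co s.1 0) h2
  rw [map_sum, map_sum, map_zero, Finset.sum_eq_single s.1] at h3
  · rw [map_smul, hod_e, tw_hod, if_neg s.2, one_smul, map_smul, co_e_same, if_pos rfl,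
      smul_eq_mul, mul_one] at h3
    rw [hy, h3, mul_zero]; rfl
  · intro τ _ hτ
    rw [map_smul, hod_e, map_smul, map_smul, F.co_e, if_neg (fun h => hτ h.1.symm), smul_zero,
      smul_zero]
  · intro h; exact absurd (Finset.mem_univ _) h

lemma betti_mul {v : A.H1} (hv : A.IsBetti v) : ∃ N : ℕ, N ≠ 0 ∧
    ∀ m : ℕ, ∃ l ∈ A.Λ, ((m * N : ℕ) : ℂ) • v = A.period l := by
  obtain ⟨N, hN, l, hl, h⟩ := hv
  refine ⟨N, hN, fun m => ⟨(m : ℤ) • l, A.Λ.smul_mem _ hl, ?_⟩⟩
  have h1 : A.period ((m : ℤ) • l) = (m : ℂ) • A.period l := by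
    rw [natCast_zsmul]
    have := map_nsmul (AddMonoidHom.mk' A.period (fun x y => period_add A x y)) m l
    rw [← Nat.cast_smul_eq_nsmul ℂ m ((AddMonoidHom.mk' A.period _) l)] at this
    exact this
  rw [h1, ← h, smul_smul]
  push_cast
  rfl

/-- the group of the period vectors -/
noncomputable def perG (A : AbVar) : AddSubgroup A.H1 :=
  A.Λ.toAddSubgroup.map (AddMonoidHom.mk' A.period (fun x y => period_add A x y))

lemma mem_perG (v : A.H1) : v ∈ perG A ↔ ∃ l ∈ A.Λ, A.period l = v := by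
  rw [perG, AddSubgroup.mem_map]
  exact Iff.rfl

/-- the periods of the integers of the field -/
lemma exists_M : ∃ M : ℕ, M ≠ 0 ∧ ∀ x : 𝓞 K, F.ρ ((M : K) * (x : K)) (F.lam 0) ∈ perG A := by
  have hb : ∀ i, ∃ N : ℕ, N ≠ 0 ∧ ∀ m : ℕ, ∃ l ∈ A.Λ,
      ((m * N : ℕ) : ℂ) • F.ρ (RingOfIntegers.basis K i : K) (F.lam 0) = A.period l := by
    intro i
    apply betti_mul
    rw [← mem_pData_Q]
    exact (F.hρ _).rat _ (F.lam_rat 0)
  choose N hN0 hN using hb
  refine ⟨∏ i, N i, Finset.prod_ne_zero_iff.mpr fun i _ => hN0 i, fun x => ?_⟩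
  have h1 : (x : K) = ∑ i, ((RingOfIntegers.basis K).repr x i : ℤ) •
      (RingOfIntegers.basis K i : K) := by
    conv_lhs => rw [← (RingOfIntegers.basis K).sum_repr x]
    show algebraMap (𝓞 K) K (∑ i, ((RingOfIntegers.basis K).repr x i : ℤ) •
      RingOfIntegers.basis K i) = _
    rw [map_sum]
    refine Finset.sum_congr rfl fun i _ => ?_
    rw [map_zsmul]
  have h2 : F.ρ (((∏ i, N i : ℕ) : K) * (x : K)) (F.lam 0) =
      ∑ i, ((RingOfIntegers.basis K).repr x i : ℤ) •
        (F.ρ (((∏ i, N i : ℕ) : K) * (RingOfIntegers.basis K i : K)) (F.lam 0)) := by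
    rw [h1, Finset.mul_sum, map_sum, LinearMap.sum_apply]
    refine Finset.sum_congr rfl fun i _ => ?_
    rw [mul_smul_comm, map_zsmul]
    rfl
  rw [h2]
  refine AddSubgroup.sum_mem _ fun i _ => AddSubgroup.zsmul_mem _ ?_ _
  obtain ⟨l, hl, h3⟩ := hN i (∏ j ∈ Finset.univ.erase i, N j)
  rw [mem_perG]
  refine ⟨l, hl, ?_⟩
  rw [← h3, Finset.prod_erase_mul _ _ (Finset.mem_univ i), map_mul, Module.End.mul_apply,
    map_natCast]
  have h4 : ∀ (m : ℕ) (v : A.H1), ((m : Module.End ℂ A.H1)) v = (m : ℂ) • v := by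
    intro m v
    rw [Module.End.natCast_apply, Nat.cast_smul_eq_nsmul]
  rw [h4]

include hp in
/-- the lattice contains the lattice of the CM type -/
lemma lattice_sub [Fintype (CType F)] : ∃ M : ℕ, M ≠ 0 ∧ ∀ x : 𝓞 K,
    (TM F ε).mulVec (fun s => p s.1 * s.1 ((M : K) * (x : K))) ∈ A.Λ := by
  obtain ⟨M, hM, h⟩ := exists_M F
  refine ⟨M, hM, fun x => ?_⟩
  obtain ⟨l, hl, h1⟩ := (mem_perG _).mp (h x)
  have h2 : (TM F ε).mulVec (fun s => p s.1 * s.1 ((M : K) * (x : K))) = l := by
    funext a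
    rw [TM_mulVec F hp (fun σ => σ ((M : K) * (x : K))), ← F.rho_lam, ← h1]
    rfl
  rw [h2]
  exact hl

include hp in
/-- the exponents of the CM type -/
theorem isExp_per (hE : GAM.St_ExpAV) [Fintype (CType F)] [DecidableEq (CType F)]
    (δ : Derivation ℚ ℂ ℂ) :
    GAM.IsExp δ K (fun s : CType F => s.1) (fun s => δ (p s.1) / p s.1) := by
  obtain ⟨M, hM, h⟩ := lattice_sub F hp
  exact hE A K (CType F) (fun s => s.1) (TM F ε) (fun s => p s.1) M δ
    (fun a s => hp.alg _ _) (fun v hv => TM_inj F hp v hv) (fun s => hp.ne _) hM h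

/-- the logarithmic derivatives of conjugate periods -/
lemma per_conj (hp : Per F p ε) (D : Derivation ℚ ℂ ℂ) (σ : K →+* ℂ) :
    D (p (ComplexEmbedding.conjugate σ)) / p (ComplexEmbedding.conjugate σ) =
      D Real.pi / Real.pi - D (p σ) / p σ := by
  have h1 := tw_conj F one_pos ((pData A).N D) (fun x v => (F.hρ x).comm_N D v)
    (D (2 * Real.pi * Complex.I) / (2 * Real.pi * Complex.I)) (fun u v => ?_) σ
  · rw [tw_N F hp, tw_N F hp] at h1
    rw [eq_sub_iff_add_eq, add_comm, h1]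
    have h2 : D (2 * Real.pi * Complex.I) = 2 * Complex.I * D Real.pi := by
      have e1 : (2 * Real.pi * Complex.I : ℂ) = (2 * Complex.I) * Real.pi := by ring
      rw [e1, D.leibniz, derivation_eq_zero D (2 * Complex.I), smul_zero, add_zero, smul_eq_mul]
      exact (isAlgebraic_algebraMap (2 : ℚ)).mul Complex.isIntegral_rat_I.isAlgebraic
    rw [h2]
    have h3 : (Real.pi : ℂ) ≠ 0 := by exact_mod_cast Real.pi_ne_zero
    field_simp
  · exact (isInv_N (I := Unit) (fun _ => 1) (fun _ => pData A) (k := 0) 0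
      Complex.two_pi_I_ne_zero (fun v _ => ⟨0, by simp⟩)
      (fun v _ => by simpa using isAlgebraic_zero) D).pol () u v

end Pool.Agent.Helper8.E.CP
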