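import Pool.Agent.Helper7.CP.Balance

/-!
The element of the Hodge structure preserves the form, provided its normalised action lies in the
Lie algebra of symmetries and all relations are balanced.
-/

namespace Pool.Agent.Helper8.E.CP

open Module NumberField LieAlgebra Pool.Agent.Helper7 Pool.Agent.Helper24 Matrix
open Pool.Agent.GPC (Emb)
open Pool.Agent.Helper8 (transfer)
open Pool.Agent.Helper8.E
open Pool.Agent.Helper8.D (Sym QF ent symI even_card)

attribute [local instance 100] LieRing.ofAssociativeRing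

set_option linter.unusedSectionVars false

section family

variable {I : Type} [Fintype I] [DecidableEq I] (n : I → ℕ)
  {κ : I → Type} [∀ i, Fintype (κ i)] [∀ i, DecidableEq (κ i)] {ϖ : ℂ}
  (P : ∀ i, PData (κ i) ϖ)
  {K : I → Type} [∀ i, Field (K i)] [∀ i, NumberField (K i)]
  {k : ℕ} (α : MultilinearMap ℂ (fun _ : Fin (2 * k) => HW κ n) ℂ)
  (F : ∀ i, Fac5 (P i) (K i))

variable (hϖ : ϖ ≠ 0)
  (hB : ∀ v : Fin (2 * k) → HW κ n, (∀ r, IsRatP n P (v r)) → ∃ q : ℚ, α v = ϖ ^ k * q)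
  (hA : ∀ v : Fin (2 * k) → HW κ n, (∀ r i m j, IsAlgebraic ℚ (v r i m j)) →
      IsAlgebraic ℚ (α v))

include hϖ hB hA in
theorem assemble2
    (hcxT : ∀ i, ¬ (F i).isH → ∀ σ : K i →+* ℂ, ComplexEmbedding.conjugate σ ≠ σ)
    (h : GG κ) (hsym : ∀ i, Sym (P i) (h.1 i) h.2) (h1 : h.2 = 1)
    (hLL : ∃ Y, IsInv n P α Y ∧ phi P (FU P F) Y = phi P (FU P F) h)
    (hNE : ∀ z : Emb K → ℤ, (∀ t, z (conjT t) = - z t) → (∀ t, (F t.1).isH → z t = 0) →
      (∀ X, IsInv n P α X → ∑ t, (z t : ℂ) * ch P (FU P F) t X = 0) →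
      ∑ t, (z t : ℂ) * ch P (FU P F) t h = 0) :
    actForm (lift n h.1) α = (k : ℂ) • α := by
  classical
  -- a symmetry with the same normalised action as `h`
  obtain ⟨Y, hY, hY2, hYh⟩ : ∃ Y, IsInv n P α Y ∧ Y.2 = 0 ∧
      ∀ t u, lift n Y.1 (EU n P F t u) = lift n h.1 (EU n P F t u) -
        ch P (FU P F) (pl n t) h • EU n P F t u := by
    obtain ⟨X, hX, hXh⟩ := hLL
    obtain ⟨Y, hY, hY2, hYX⟩ := lift_zero' n P α F hϖ hB hA X hX
    refine ⟨Y, hY, hY2, fun t u => ?_⟩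
    have h6 := congrArg (slotL n t.1 t.2.1) (eq_of_phi P F hXh t.1 t.2.2 (u t.1 t.2.1))
    rw [map_sub, map_sub, map_smul, map_smul] at h6
    rw [hYX, lift_EU, lift_EU, EU_apply]
    exact h6
  have hchh : ∀ t : Emb K, (F t.1).isH → ch P (FU P F) t h = 1 / 2 := by
    intro t ht
    have := (F t.1).ch_half ht t.2 (hsym t.1)
    rw [h1] at this
    exact this
  have hchX : ∀ t : Emb K, (F t.1).isH → ∀ X, IsInv n P α X →
      ch P (FU P F) t X = X.2 / 2 := fun t ht X hX =>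
    (F t.1).ch_half ht t.2 (symI n P α hX t.1)
  -- the operator `h` commutes with the projectors
  have hcomm : ∀ (t : Emb K) (v : κ t.1 → ℂ), h.1 t.1 (proj (FU P F t.1).ρ t.2 v) =
      proj (FU P F t.1).ρ t.2 (h.1 t.1 v) := fun t v =>
    comm_proj _ _ (fun x v => (hsym t.1).comm _ ((F t.1).toUF.hρ x) v) t.2 v
  refine transfer (G := {X : GG κ // IsInv n P α X}) α (fun X => lift n X.1.1)
    (fun X => X.1.2) (EU n P F) (fun t X => ch P (FU P F) (pl n t) X.1) (lift n h.1)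
    (fun t => ch P (FU P F) (pl n t) h) (fun X => X.2.form) (sum_EU n P F) ?_ ?_ ?_ ?_
  · intro t u
    rw [lift_EU, EU_apply, lift_apply, hcomm ⟨t.1, t.2.2⟩]
  · rintro ⟨X, hX⟩
    obtain ⟨Y, hY, hY2, hYX⟩ := lift_zero' n P α F hϖ hB hA X hX
    exact ⟨⟨Y, hY⟩, hY2, hYX⟩
  · exact ⟨⟨Y, hY⟩, hY2, hYh⟩
  · intro p v hne hwt
    have hcj : ∀ t : Emb K, ch P (FU P F) t h + ch P (FU P F) (conjT t) h = 1 := fun t => by
      have := tw_conj (F t.1).toUF (F t.1).rk_pos (h.1 t.1) ((hsym t.1).commF _) h.2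
        (hsym t.1).pol t.2
      rw [h1] at this
      exact this
    exact balance2 (fun i => ¬ (F i).isH) hcxT (G := {X : GG κ // IsInv n P α X})
      (fun t X => ch P (FU P F) t X.1) (fun X => X.1.2)
      (fun t X => ch_conj n P (FU P F) α (fun i => (F i).rk_pos) t X.1 X.2)
      (fun t X ht => hchX t (not_not.mp ht) X.1 X.2) p hwt
      (fun t => ch P (FU P F) t h)
      (fun z hz1 hz2 hz3 => hNE z hz1 (fun t ht => hz2 t (not_not.mpr ht))
        (fun X hX => hz3 ⟨X, hX⟩)) hcj (fun t ht => hchh t (not_not.mp ht))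

end family

end Pool.Agent.Helper8.E.CP
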