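import Pool.Agent.Helper8.E.HodgeIn

/-!
Counting slots: the sum of the weights of the Hodge cocharacter, when all relations are balanced.
-/

namespace Pool.Agent.Helper8.E.CP

open Module NumberField Pool.Agent.Helper7 Pool.Agent.Helper8.E
open Pool.Agent.GPC (Emb)

section balance

variable {I : Type} [Fintype I] [DecidableEq I] {n : I → ℕ}
  {K : I → Type} [∀ i, Field (K i)] [∀ i, NumberField (K i)]

/-- the sum of the weights of the Hodge cocharacter over a balanced pattern, when all relations are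
balanced -/
theorem balance2 (T : I → Prop)
    (hcx : ∀ i, T i → ∀ σ : K i →+* ℂ, ComplexEmbedding.conjugate σ ≠ σ)
    {G : Type*} (w : Emb K → G → ℂ) (c : G → ℂ)
    (hw : ∀ t X, w t X + w (conjT t) X = c X) (hw' : ∀ t X, ¬ T t.1 → w t X = c X / 2)
    {k : ℕ} (p : Fin (2 * k) → At n K)
    (hwt : ∀ X, ∑ r, w (pl n (p r)) X = k * c X)
    (ν : Emb K → ℂ)
    (hNE : ∀ z : Emb K → ℤ, (∀ t, z (conjT t) = - z t) → (∀ t, ¬ T t.1 → z t = 0) →
      (∀ X, ∑ t, (z t : ℂ) * w t X = 0) → ∑ t, (z t : ℂ) * ν t = 0)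
    (hν : ∀ t, ν t + ν (conjT t) = 1) (hν' : ∀ t, ¬ T t.1 → ν t = 1 / 2) :
    ∑ r, ν (pl n (p r)) = k := by
  classical
  obtain ⟨q, hq⟩ : ∃ q : Fin (2 * k) → Emb K, q = fun r => pl n (p r) := ⟨_, rfl⟩
  have hq' : ∀ r, pl n (p r) = q r := fun r => by rw [hq]
  obtain ⟨d, hd⟩ : ∃ d : Emb K → ℕ, ∀ t, d t =
      (Finset.univ.filter (fun r => q r = t)).card := ⟨_, fun _ => rfl⟩
  -- sums over slots
  have hsum : ∀ f : Emb K → ℂ, ∑ r, f (q r) = ∑ t, (d t : ℂ) * f t := by
    intro f
    rw [← Finset.sum_fiberwise_of_maps_to (s := Finset.univ) (t := Finset.univ) (g := q)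
      (fun r _ => Finset.mem_univ _)]
    refine Finset.sum_congr rfl fun t _ => ?_
    rw [hd, ← nsmul_eq_mul, ← Finset.sum_const]
    exact Finset.sum_congr rfl fun r hr => by rw [(Finset.mem_filter.mp hr).2]
  let z : Emb K → ℤ := fun t => if T t.1 then (d t : ℤ) - d (conjT t) else 0
  have hzT : ∀ t, T t.1 → z t = (d t : ℤ) - d (conjT t) := fun t h => if_pos h
  have hz0 : ∀ t, ¬ T t.1 → z t = 0 := fun t h => if_neg h
  have hTc : ∀ t : Emb K, T (conjT t).1 ↔ T t.1 := fun t => Iff.rfl
  have hzc : ∀ t, z (conjT t) = - z t := by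
    intro t
    by_cases h : T t.1
    · rw [hzT t h, hzT (conjT t) h, conjT_conjT]; ring
    · rw [hz0 t h, hz0 (conjT t) h, neg_zero]
  -- totals
  let N : Finset (Emb K) := Finset.univ.filter (fun t => T t.1)
  have hNc : ∀ t ∈ N, conjT t ∈ N := by
    intro t ht
    rw [Finset.mem_filter] at ht ⊢
    exact ⟨Finset.mem_univ _, ht.2⟩
  have hNne : ∀ t ∈ N, conjT t ≠ t := by
    rintro ⟨i, σ⟩ ht h
    exact hcx i (Finset.mem_filter.mp ht).2 σ
      (sigma_mk_injective (β := fun i => (K i →+* ℂ)) h)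
  have hsymm : ∀ f : Emb K → ℂ, ∑ t ∈ N, f (conjT t) = ∑ t ∈ N, f t := fun f =>
    Finset.sum_nbij' conjT conjT hNc hNc (fun t _ => conjT_conjT t)
        (fun t _ => conjT_conjT t) (fun t _ => rfl)
  have hcount : ∑ t ∈ N, (d t : ℂ) + ((Finset.univ.filter (fun r => ¬ T (p r).1)).card : ℂ) =
      2 * k := by
    have h1 : ∑ t ∈ N, d t = (Finset.univ.filter (fun r => T (q r).1)).card := by
      rw [Finset.card_eq_sum_card_fiberwise (f := q) (t := N) (fun r hr => by
        rw [Finset.mem_coe, Finset.mem_filter] at hr ⊢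
        exact ⟨Finset.mem_univ _, hr.2⟩)]
      refine Finset.sum_congr rfl fun t ht => ?_
      rw [hd]
      congr 1
      ext r
      simp only [Finset.mem_filter, Finset.mem_univ, true_and]
      constructor
      · intro h
        exact ⟨by rw [h]; exact (Finset.mem_filter.mp ht).2, h⟩
      · intro h; exact h.2
    have h2 : (Finset.univ.filter (fun r => T (q r).1)) =
        (Finset.univ.filter (fun r => T (p r).1)) := by
      rw [hq]
    have h3 := Finset.card_filter_add_card_filter_not (s := (Finset.univ : Finset (Fin (2 * k))))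
      (fun r => T (p r).1)
    rw [Finset.card_univ, Fintype.card_fin, ← h2, ← h1] at h3
    have h4 : ((∑ t ∈ N, d t + (Finset.univ.filter (fun r => ¬ T (p r).1)).card : ℕ) : ℂ) =
        ((2 * k : ℕ) : ℂ) := by rw [h3]
    push_cast at h4
    exact h4
  -- any function with constant sums over conjugate places, half of it outside of `T`
  have hsplit : ∀ (f : Emb K → ℂ) (a : ℂ), (∀ t, f t + f (conjT t) = a) →
      (∀ t, ¬ T t.1 → f t = a / 2) →
      2 * ∑ r, f (q r) = 2 * k * a + ∑ t, (z t : ℂ) * f t := by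
    intro f a hf hf'
    have e1 : ∑ r, f (q r) = ∑ r ∈ Finset.univ.filter (fun r => T (q r).1), f (q r) +
        ((Finset.univ.filter (fun r => ¬ T (p r).1)).card : ℂ) * (a / 2) := by
      rw [← Finset.sum_filter_add_sum_filter_not Finset.univ (fun r => T (q r).1)]
      congr 1
      rw [← nsmul_eq_mul, ← Finset.sum_const]
      have h2 : (Finset.univ.filter (fun r => ¬ T (q r).1)) =
        (Finset.univ.filter (fun r => ¬ T (p r).1)) := by
        rw [hq]
      rw [← h2]
      exact Finset.sum_congr rfl fun r hr => hf' _ (Finset.mem_filter.mp hr).2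
    have e2 : ∑ r ∈ Finset.univ.filter (fun r => T (q r).1), f (q r) =
        ∑ t ∈ N, (d t : ℂ) * f t := by
      have h1 := hsum (fun t => if T t.1 then f t else 0)
      have h2 : ∑ r ∈ Finset.univ.filter (fun r => T (q r).1), f (q r) =
          ∑ r, (if T (q r).1 then f (q r) else 0) := by rw [Finset.sum_filter]
      have h3 : ∑ t ∈ N, (d t : ℂ) * f t = ∑ t, (d t : ℂ) * (if T t.1 then f t else 0) := by
        rw [Finset.sum_filter]
        refine Finset.sum_congr rfl fun t _ => ?_
        split_ifs <;> simp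
      rw [h2, h3]
      exact h1
    have e3 : ∑ t, (z t : ℂ) * f t = ∑ t ∈ N, (d t : ℂ) * f t -
        ∑ t ∈ N, (d (conjT t) : ℂ) * f t := by
      rw [← Finset.sum_sub_distrib, Finset.sum_filter]
      refine Finset.sum_congr rfl fun t _ => ?_
      by_cases h : T t.1
      · rw [if_pos h, hzT t h]; push_cast; ring
      · rw [if_neg h, hz0 t h]; simp
    have e4 : ∑ t ∈ N, (d (conjT t) : ℂ) * f t = ∑ t ∈ N, (d t : ℂ) * (a - f t) := by
      rw [← hsymm (fun t => (d (conjT t) : ℂ) * f t)]
      refine Finset.sum_congr rfl fun t _ => ?_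
      show (d (conjT (conjT t)) : ℂ) * f (conjT t) = _
      rw [conjT_conjT, ← hf t]
      ring
    have e5 : ∑ t ∈ N, (d t : ℂ) * (a - f t) = (∑ t ∈ N, (d t : ℂ)) * a -
        ∑ t ∈ N, (d t : ℂ) * f t := by
      rw [Finset.sum_mul, ← Finset.sum_sub_distrib]
      exact Finset.sum_congr rfl fun t _ => by ring
    rw [e1, e2, e3, e4, e5]
    linear_combination a * hcount
  -- the vector of differences is a relation
  have hzrel : ∀ X, ∑ t, (z t : ℂ) * w t X = 0 := by
    intro X
    have h1 := hsplit (fun t => w t X) (c X) (fun t => hw t X) (fun t h => hw' t X h)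
    have h2 := hwt X
    simp only [hq'] at h2
    rw [h2] at h1
    linear_combination -h1
  have h1 := hsplit ν 1 hν hν'
  have h2 : ∑ t, (z t : ℂ) * ν t = 0 := hNE z hzc hz0 hzrel
  rw [h2, add_zero, mul_one] at h1
  simp only [hq']
  exact mul_left_cancel₀ two_ne_zero h1

end balance

end Pool.Agent.Helper8.E.CP
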