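import Pool.Agent.Helper7.CP.AVLat
import Pool.Agent.Helper8.D.MainIII

/-!
Grothendieck classes are Hodge classes, for products of factors of `GL_2`-type and of factors with
complex multiplication by abelian fields.
-/

open scoped ComplexConjugate

namespace Pool.Agent.Helper8.E.CP

open Module NumberField LieAlgebra Pool.Agent.Helper7 Pool.Agent.Helper24 Pool.Agent.GPC Matrix
open Pool.Agent.Helper8.E
open Pool.Agent.Helper8.D (hG hG_sym exists_UF1)

attribute [local instance 100] LieRing.ofAssociativeRing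

set_option linter.unusedSectionVars false

/-- splitting a sum over the embeddings by a CM type -/
lemma sum_split {A : AbVar} {K : Type} [Field K] [NumberField K] (F : UF (pData A) K 1)
    [Fintype (CType F)] (f : (K →+* ℂ) → ℂ) :
    ∑ σ, f σ = ∑ s : CType F, (f s.1 + f (ComplexEmbedding.conjugate s.1)) := by
  classical
  have e := Fintype.sum_equiv (Equiv.ofBijective _ (cmt F)) (fun x => f
    (Sum.elim (fun s : CType F => s.1) (fun s => s.1.comp (ccH F)) x)) f (fun x => rfl)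
  rw [← e, Fintype.sum_sum_type, Finset.sum_add_distrib]
  congr 1
  refine Finset.sum_congr rfl fun s _ => ?_
  rw [Sum.elim_inr, comp_ccH]

variable {I : Type} [Fintype I] (A : I → AbVar) (n : I → ℕ) (K : I → Type)
  [∀ i, Field (K i)] [∀ i, NumberField (K i)]

/-- the theorem for families -/
theorem hodge_ST (hBal : GAM.St_Bal) (hExp : GAM.St_ExpAV) (T : Finset I)
    (hS : ∀ i, i ∉ T → IsRMType (A i) (K i)) (hT : ∀ i ∈ T, IsCMType (A i) (K i))
    (hgal : ∀ i ∈ T, IsGalois ℚ (K i))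
    (hab : ∀ i ∈ T, ∀ g g' : K i ≃ₐ[ℚ] K i, g * g' = g' * g) (k : ℕ) (α : Form A n (2 * k))
    (hα : IsGrothendieck A n k α) : IsHodge A n k α := by
  classical
  have hF : ∀ i, ∃ f : Fac5 (pData (A i)) (K i), (f.isT ↔ i ∈ T) ∧ (f.isS ↔ i ∉ T) := by
    intro i
    by_cases hi : i ∈ T
    · obtain ⟨h1, ⟨C⟩⟩ := hT i hi
      obtain ⟨F, -⟩ := exists_UF1 (A i) (K i) C
      exact ⟨.T F, ⟨fun _ => hi, fun _ => trivial⟩, ⟨fun h => h.elim, fun h => absurd hi h⟩⟩
    · obtain ⟨h1, ⟨C⟩⟩ := hS i hi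
      obtain ⟨F, -⟩ := nonempty_UF2 (A i) (K i) C
      exact ⟨.S F (fun σ => ComplexEmbedding.isReal_iff.mp
        (IsTotallyReal.complexEmbedding_isReal σ)), ⟨fun h => h.elim, fun h => absurd h hi⟩,
        ⟨fun _ => hi, fun _ => trivial⟩⟩
  choose F hFT hFS using hF
  have hcx : ∀ i ∈ T, ∀ σ : K i →+* ℂ, ComplexEmbedding.conjugate σ ≠ σ := by
    intro i hi σ hσ
    have := (hT i hi).choose
    exact IsTotallyComplex.complexEmbedding_not_isReal σ (ComplexEmbedding.isReal_iff.mpr hσ)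
  have hG : ∀ i : {i // i ∈ T}, ∃ G : UF (pData (A i.1)) (K i.1) 1,
      ∀ (σ : K i.1 →+* ℂ) X, tw (FU (fun i => pData (A i)) F i.1) σ X = tw G σ X := by
    rintro ⟨i, hi⟩
    have key : ∀ f : Fac5 (pData (A i)) (K i), f.isT → ∃ G : UF (pData (A i)) (K i) 1,
      ∀ (σ : K i →+* ℂ) X, tw f.toUF σ X = tw G σ X := by
      intro f hf
      cases f with
      | S F' h' => exact hf.elim
      | W F' h' => exact hf.elim
      | Q F' => exact hf.elim
      | R F' => exact hf.elim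
      | T F' => exact ⟨F', fun _ _ => rfl⟩
    exact key (F i) ((hFT i).mpr hi)
  choose G hG using hG
  have hper := fun i : {i // i ∈ T} => exists_per (G i)
  choose p ε hp using hper
  refine hodge_of_factors2 A n K T hcx F hFT hFS k α hα fun z hz hz0 hzX => ?_
  have hB : ∀ v : Fin (2 * k) → HW (fun i => Fin (A i).g ⊕ Fin (A i).g) n,
      (∀ r, IsRatP n (fun i => pData (A i)) (v r)) →
      ∃ q : ℚ, (α : MultilinearMap ℂ
        (fun _ : Fin (2 * k) => HW (fun i => Fin (A i).g ⊕ Fin (A i).g) n) ℂ) v =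
          (2 * Real.pi * Complex.I) ^ k * q := by
    intro v hv
    apply hα.2
    intro r i m
    exact (mem_pData_Q _ _).mp (hv r i m)
  have hA : ∀ v : Fin (2 * k) → HW (fun i => Fin (A i).g ⊕ Fin (A i).g) n,
      (∀ r i m j, IsAlgebraic ℚ (v r i m j)) → IsAlgebraic ℚ ((α : MultilinearMap ℂ
        (fun _ : Fin (2 * k) => HW (fun i => Fin (A i).g ⊕ Fin (A i).g) n) ℂ) v) := hα.1
  let fi : ∀ i : {i // i ∈ T}, Fintype (CType (G i)) := fun i => Fintype.ofFinite _
  have hsumT : ∀ f : Emb K → ℂ, (∀ t, t.1 ∉ T → f t = 0) → ∑ t, f t =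
      ∑ i : {i // i ∈ T}, ∑ s : CType (G i), (f ⟨i.1, s.1⟩ +
        f ⟨i.1, ComplexEmbedding.conjugate s.1⟩) := by
    intro f hf
    rw [sum_N T f hf, Fintype.sum_sigma]
    exact Finset.sum_congr rfl fun i _ => sum_split (G i) (fun σ => f ⟨i.1, σ⟩)
  have hzc : ∀ (i : I) (σ : K i →+* ℂ), z ⟨i, ComplexEmbedding.conjugate σ⟩ = - z ⟨i, σ⟩ :=
    fun i σ => hz ⟨i, σ⟩
  have hbal := hBal {i // i ∈ T} (fun i => K i.1) (fun i => ccH (G i)) (fun i => CType (G i))
    (fun i s => s.1) (fun δ i s => δ (p i s.1) / p i s.1) (fun t => z ⟨t.1.1, t.2⟩)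
    (fun i => hgal i.1 i.2) (fun i => hab i.1 i.2) (fun i => cmf_ccH (G i) (hcx i.1 i.2))
    (fun i => cmt (G i)) (fun δ i => isExp_per (G i) (hp i) hExp δ)
    (fun i σ => by
      show z ⟨i.1, σ.comp (ccH (G i))⟩ = - z ⟨i.1, σ⟩
      rw [comp_ccH]
      exact hzc i.1 σ)
    (fun τ δ => by
      have h1 := rel_N n (fun i => pData (A i)) _ F T Complex.two_pi_I_ne_zero hB hA z hz hz0 hzX
        τ δ
      rw [hsumT _ (fun t ht => by rw [hz0 (actT τ t) ht]; simp)] at h1
      rw [← h1]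
      refine Finset.sum_congr rfl fun i _ => Finset.sum_congr rfl fun s _ => ?_
      have h2 : z (actT τ (⟨i.1, ComplexEmbedding.conjugate s.1⟩ : Emb K)) =
          - z (actT τ (⟨i.1, s.1⟩ : Emb K)) := by
        have h3 : (τ : ℂ →+* ℂ).comp (ComplexEmbedding.conjugate s.1) =
            ComplexEmbedding.conjugate ((τ : ℂ →+* ℂ).comp s.1) := by
          rw [← comp_ccH (G i), ← comp_ccH (G i), RingHom.comp_assoc]
        have h4 := hzc i.1 ((τ : ℂ →+* ℂ).comp s.1)
        rw [← h3] at h4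
        exact h4
      show (z ⟨i.1, (τ : ℂ →+* ℂ).comp s.1⟩ : ℂ) *
          (2 * (δ (p i s.1) / p i s.1) - δ Real.pi / Real.pi) =
        (z (actT τ (⟨i.1, s.1⟩ : Emb K)) : ℂ) *
          tw (FU (fun i => pData (A i)) F i.1) s.1 ((pData (A i.1)).N δ) +
        (z (actT τ (⟨i.1, ComplexEmbedding.conjugate s.1⟩ : Emb K)) : ℂ) *
          tw (FU (fun i => pData (A i)) F i.1) (ComplexEmbedding.conjugate s.1)
            ((pData (A i.1)).N δ)
      rw [h2, hG, hG, tw_N (G i) (hp i), tw_N (G i) (hp i), per_conj (G i) (hp i)]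
      have h5 : z (actT τ (⟨i.1, s.1⟩ : Emb K)) = z ⟨i.1, (τ : ℂ →+* ℂ).comp s.1⟩ := rfl
      rw [h5]
      push_cast
      ring)
  rw [hsumT _ (fun t ht => by rw [hz0 t ht]; simp)]
  have h6 : ((∑ i : {i // i ∈ T}, ∑ s : CType (G i), z ⟨i.1, s.1⟩ : ℤ) : ℂ) = 0 := by
    rw [hbal]; simp
  push_cast at h6
  rw [← h6]
  refine Finset.sum_congr rfl fun i _ => Finset.sum_congr rfl fun s _ => ?_
  show (z ⟨i.1, s.1⟩ : ℂ) * tw (FU (fun i => pData (A i)) F i.1) s.1 (hod (A i.1)) +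
    (z ⟨i.1, ComplexEmbedding.conjugate s.1⟩ : ℂ) *
      tw (FU (fun i => pData (A i)) F i.1) (ComplexEmbedding.conjugate s.1) (hod (A i.1)) = _
  rw [hG, hG, tw_hod, tw_hod, if_neg s.2,
    if_pos (by
      by_contra hcon
      exact hcon ((fil_conj (G i) s.1).mpr s.2))]
  ring

end Pool.Agent.Helper8.E.CP
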