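import Pool.Agent.Helper7.CP.Types
import Pool.Agent.Helper7.CP.ST
import Pool.Agent.Helper7.PD.Cases

/-!
Simple abelian varieties with complex multiplication by an abelian number field.
-/

namespace Pool.Agent.Helper7.CP

open Module NumberField Pool.Agent.GPC Pool.Agent.Helper7

/-- the action as ring homomorphism -/
noncomputable def acRho {B : AbVar} {K : Type} [Field K] [NumberField K]
    {ρ : K → B.H1 → B.H1} (C : B.IsAbelianCM K ρ) : K →+* Module.End ℂ B.H1 where
  toFun x := IsLinearMap.mk' _ (C.endo x).linear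
  map_one' := LinearMap.ext C.one
  map_mul' x y := LinearMap.ext (C.mul x y)
  map_add' x y := LinearMap.ext (C.add x y)
  map_zero' := LinearMap.ext fun v => by
    have h := C.add 0 0 v
    rw [add_zero] at h
    have h2 : ρ 0 v = 0 := by
      have h3 := congrArg (fun w => w - ρ 0 v) h
      simp only [sub_self, add_sub_cancel_right] at h3
      exact h3.symm
    exact h2

/-- all endomorphisms are in the field -/
lemma ac_full {B : AbVar} {K : Type} [Field K] [NumberField K] {ρ : K → B.H1 → B.H1}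
    (C : B.IsAbelianCM K ρ) (hs : B.IsSimple) (f : B.H1 → B.H1) (hf : B.IsEnd f) :
    ∃ x, ∀ v, f v = ρ x v := by
  have hQ : ∀ x, ∀ v ∈ (pData B).Q, acRho C x v ∈ (pData B).Q :=
    fun x v hv => (isDRB_of_isEnd B _ (C.endo x)).rat v hv
  obtain ⟨lam, h1, h2, eb, h3⟩ := exists_Kbasis (pData B) (acRho C) hQ 1
    (by rw [C.degree, card_index, mul_one])
  have hl : lam 0 ≠ 0 := by
    have σ : K →+* ℂ := Classical.choice (inferInstance : Nonempty (K →+* ℂ))
    intro h0
    have h4 := h3 σ 0
    rw [h0, map_zero] at h4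
    exact eb.ne_zero (σ, 0) h4
  have h4 : f (lam 0) ∈ (pData B).Q := by
    rw [mem_pData_Q]
    exact hf.betti _ ((mem_pData_Q B _).mp (h1 0))
  obtain ⟨x, hx⟩ := h2 _ h4
  rw [Fin.sum_univ_one] at hx
  refine ⟨x 0, fun v => ?_⟩
  let g : B.H1 → B.H1 := fun v => f v - ρ (x 0) v
  have hg : B.IsEnd g := by
    have hl1 := hf.linear
    have hl2 := (C.endo (x 0)).linear
    refine ⟨⟨fun u v => ?_, fun c v => ?_⟩, fun v hv => ?_, fun v hv j => ?_, fun v hv a => ?_⟩
    · show f (u + v) - ρ (x 0) (u + v) = (f u - ρ (x 0) u) + (f v - ρ (x 0) v)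
      rw [hl1.map_add, hl2.map_add]; abel
    · show f (c • v) - ρ (x 0) (c • v) = c • (f v - ρ (x 0) v)
      rw [hl1.map_smul, hl2.map_smul, smul_sub]
    · rw [← mem_pData_Q]
      exact Submodule.sub_mem _ ((mem_pData_Q B _).mpr (hf.betti v hv))
        ((mem_pData_Q B _).mpr ((C.endo (x 0)).betti v hv))
    · exact (hf.deRham v hv j).sub ((C.endo (x 0)).deRham v hv j)
    · show f v (.inl a) - ρ (x 0) v (.inl a) = 0
      rw [hf.hodge v hv a, (C.endo (x 0)).hodge v hv a, sub_zero]
  by_contra hne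
  have hinj := hs g hg ⟨v, sub_ne_zero.mpr hne⟩
  apply hl
  apply hinj
  have h5 : g 0 = 0 := by
    have := hg.linear.map_smul 0 (0 : B.H1)
    rwa [zero_smul, zero_smul] at this
  rw [h5]
  exact sub_eq_zero.mpr hx

/-- a simple abelian variety with complex multiplication by an abelian field is of CM type for an
abelian CM field -/
theorem cm_of_abelian {B : AbVar} {K : Type} [Field K] [NumberField K] {ρ : K → B.H1 → B.H1}
    (C : B.IsAbelianCM K ρ) (hs : B.IsSimple) :
    ∃ (K' : Type) (_ : Field K') (_ : NumberField K'), IsCMType B K' ∧ IsGalois ℚ K' ∧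
      ∀ g g' : K' ≃ₐ[ℚ] K', g * g' = g' * g := by
  have hg : 0 < B.g := by
    have h1 : 0 < finrank ℚ K := finrank_pos
    rw [C.degree] at h1
    omega
  have hinjρ : ∀ x y : K, (∀ v, ρ x v = ρ y v) → x = y := by
    intro x y h
    have h1 : acRho C x = acRho C y := LinearMap.ext h
    have hnt : Nontrivial (Module.End ℂ B.H1) := by
      have : Nontrivial B.H1 := by
        refine ⟨⟨Pi.single (Sum.inl ⟨0, hg⟩) 1, 0, fun h => ?_⟩⟩
        have h2 := congrFun h (Sum.inl ⟨0, hg⟩)
        rw [Pi.single_eq_same] at h2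
        exact one_ne_zero h2
      infer_instance
    exact (acRho C).injective h1
  have hcomm : ∀ f g : B.H1 → B.H1, B.IsEnd f → B.IsEnd g → ∀ v, f (g v) = g (f v) := by
    intro f g hf hg v
    obtain ⟨x, hx⟩ := ac_full C hs f hf
    obtain ⟨y, hy⟩ := ac_full C hs g hg
    rw [hx, hy, hy, hx, ← C.mul, ← C.mul, mul_comm]
  -- a field which acts with the same properties is isomorphic to `K`
  have key : ∀ (K' : Type) [Field K'] [NumberField K'] (ρ' : K' → B.H1 → B.H1),
      (∀ v, ρ' 1 v = v) → (∀ x y v, ρ' (x * y) v = ρ' x (ρ' y v)) →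
      (∀ x y v, ρ' (x + y) v = ρ' x v + ρ' y v) → (∀ x, B.IsEnd (ρ' x)) →
      (∀ f, B.IsEnd f → ∃ x, ∀ v, f v = ρ' x v) → Nonempty (K' ≃+* K) := by
    intro K' _ _ ρ' h1 hm ha he hf
    choose e he' using fun x => ac_full C hs (ρ' x) (he x)
    let E : K' →+* K :=
      { toFun := e
        map_one' := hinjρ _ _ fun v => by rw [← he', h1, C.one]
        map_mul' := fun x y => hinjρ _ _ fun v => by
          rw [← he', hm, he', he', C.mul]
        map_zero' := hinjρ _ _ fun v => by
          have h2 := ha 0 0 v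
          rw [add_zero] at h2
          have h3 := C.add 0 0 v
          rw [add_zero] at h3
          rw [← he']
          have h4 : ρ' 0 v = 0 := by
            have := congrArg (fun w => w - ρ' 0 v) h2
            simpa using this.symm
          have h5 : ρ 0 v = 0 := by
            have := congrArg (fun w => w - ρ 0 v) h3
            simpa using this.symm
          rw [h4, h5]
        map_add' := fun x y => hinjρ _ _ fun v => by
          rw [← he', ha, he', he', C.add] }
    refine ⟨RingEquiv.ofBijective E ⟨E.injective, fun x => ?_⟩⟩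
    obtain ⟨y, hy⟩ := hf _ (C.endo x)
    exact ⟨y, hinjρ _ _ fun v => by
      show ρ (e y) v = _
      rw [← he', hy]⟩
  have hdeg : ∀ (K' : Type) [Field K'] [NumberField K'], Nonempty (K' ≃+* K) →
      finrank ℚ K' = 2 * B.g := by
    rintro K' _ _ ⟨e⟩
    rw [← C.degree]
    exact LinearEquiv.finrank_eq (e.toRatAlgEquiv.toLinearEquiv)
  have hab := C.abelian
  have htr : ∀ (K' : Type) [Field K'] [NumberField K'], Nonempty (K' ≃+* K) →
      IsGalois ℚ K' ∧ ∀ g g' : K' ≃ₐ[ℚ] K', g * g' = g' * g := by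
    rintro K' _ _ ⟨e⟩
    have h1 : IsAbelianGalois ℚ K' := IsAbelianGalois.of_algHom (e.toRatAlgEquiv : K' →ₐ[ℚ] K)
    exact ⟨h1.toIsGalois, fun g g' => h1.toIsMulCommutative.is_comm.comm g g'⟩
  obtain ⟨K', iF, iN, hK⟩ := simple_cases B hs
  refine ⟨K', iF, iN, ?_⟩
  rcases hK with ⟨hre, ⟨D⟩⟩ | ⟨h1, ρ', D⟩ | ⟨h1, ρ', j, b, D⟩
  · -- real type is impossible
    exfalso
    have hiso := key K' D.ρ D.one D.mul D.add D.endo (fun f hf => D.centralizer f hf
      (fun x v => hcomm f (D.ρ x) hf (D.endo x) v))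
    have h2 := hdeg K' hiso
    obtain ⟨F, hF⟩ := nonempty_RF B K' D
    obtain ⟨s, hs2⟩ := rf_even F
    rw [hs2, h2] at hF
    have h3 : 2 * B.g * (2 * s) = 2 * B.g * 1 := by
      have : s + s = 2 * s := by ring
      rw [← this, hF, mul_one]
    have h4 := Nat.eq_of_mul_eq_mul_left (by omega) h3
    omega
  · have hiso := key K' ρ' D.one D.mul D.add D.endo (fun f hf => D.centralizer f hf
      (fun x _ v => hcomm f (ρ' x) hf (D.endo x) v))
    exact ⟨cmType_of_herm D (hdeg K' hiso), (htr K' hiso).1, (htr K' hiso).2⟩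
  · exfalso
    have hz : ∀ y : K', y ≠ 0 → ∀ w : B.H1, ρ' y w = 0 → w = 0 := by
      intro y hy w hw
      have h2 : ρ' (y⁻¹ * y) w = ρ' y⁻¹ (ρ' y w) := D.mul _ _ _
      rw [inv_mul_cancel₀ hy, D.one, hw] at h2
      rw [h2]
      have h3 := (D.endo y⁻¹).linear.map_smul 0 (0 : B.H1)
      rwa [zero_smul, zero_smul] at h3
    obtain ⟨x, hx⟩ : ∃ x : K', cmConj K' x ≠ x := by
      by_contra hcon
      push Not at hcon
      have σ : K' →+* ℂ := Classical.choice (inferInstance : Nonempty (K' →+* ℂ))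
      refine IsTotallyComplex.complexEmbedding_not_isReal σ (ComplexEmbedding.isReal_iff.mpr ?_)
      refine RingHom.ext fun x => ?_
      rw [ComplexEmbedding.conjugate_coe_eq,
        ← IsCMField.complexEmbedding_complexConj K' σ x]
      exact congrArg σ (hcon x)
    have hj : ∀ v, j v = 0 := by
      intro v
      refine hz (cmConj K' x - x) (sub_ne_zero.mpr hx) _ ?_
      have h2 := D.conj_j x v
      rw [hcomm j (ρ' x) D.endo_j (D.endo x) v] at h2
      have h3 := D.add (cmConj K' x - x) x (j v)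
      rw [sub_add_cancel, ← h2] at h3
      have h4 := congrArg (fun w => w - ρ' x (j v)) h3
      simpa using h4.symm
    have h5 : (Pi.single (Sum.inl ⟨0, hg⟩) 1 : B.H1) = 0 := by
      refine hz b D.ne_zero _ ?_
      rw [← D.sq_j, hj]
    have h6 := congrFun h5 (Sum.inl ⟨0, hg⟩)
    rw [Pi.single_eq_same] at h6
    exact one_ne_zero h6

end Pool.Agent.Helper7.CP
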