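import Pool.Agent.Helper7.CP.EllIso
import Pool.Agent.Helper7.CP.Simple
import Pool.Agent.Helper7.AF.Assembly
import Pool.Agent.Helper28.GPC.MainHK

/-!
Elliptic curves with complex multiplication by the same imaginary quadratic field are isogenous.
-/

open scoped ComplexConjugate

namespace Pool.Agent.Helper7.CP

open Module NumberField Pool.Agent.GPC Pool.Agent.Helper7 Pool.Agent.Helper8.E.CP
open Pool.Agent.Helper8.D (exists_UF1)

set_option linter.unusedSectionVars false

/-- elliptic curves -/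
lemma ell_cases (A : AbVar) (hs : A.IsSimple) (hg : A.g = 1) :
    ∃ (K : Type) (_ : Field K) (_ : NumberField K), IsRMType A K ∨
      (IsCMType A K ∧ finrank ℚ K = 2) := by
  obtain ⟨K, iF, iN, hK⟩ := simple_cases A hs
  refine ⟨K, iF, iN, ?_⟩
  rcases hK with h | ⟨h1, ρ, C⟩ | ⟨h1, ρ, j, b, C⟩
  · obtain ⟨h1, ⟨C, -⟩⟩ := fullRM_of_real h hg
    exact Or.inl ⟨h1, ⟨C⟩⟩
  · obtain ⟨r, hr⟩ := herm_rank A K ρ C
    obtain ⟨e, he, he0⟩ := cm_even K
    rw [he, hg] at hr
    have h3 : e * r = 1 := by nlinarith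
    have h4 : e = 1 := Nat.eq_one_of_mul_eq_one_right h3
    have h5 : finrank ℚ K = 2 := by rw [he, h4]
    exact Or.inr ⟨cmType_of_herm C (by rw [h5, hg]), h5⟩
  · exfalso
    obtain ⟨m, hm, -⟩ := quat_rank A K ρ j b C
    obtain ⟨e, he, he0⟩ := cm_even K
    rw [he, hg, mul_assoc] at hm
    have : e * m ≤ 0 := by omega
    have h2 : e * m = 0 := Nat.le_zero.mp this
    rw [h2] at hm
    omega

/-- eigenvectors -/
lemma eig_span {A : AbVar} {K : Type} [Field K] [NumberField K] (F : UF (pData A) K 1)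
    (σ : K →+* ℂ) (v : A.H1) (hv : ∀ x, F.ρ x v = σ x • v) : v = F.co σ 0 v • F.e σ 0 := by
  classical
  have h1 : ∀ τ, τ ≠ σ → F.co τ 0 v = 0 := by
    intro τ hτ
    obtain ⟨x, hx⟩ : ∃ x, τ x ≠ σ x := by
      by_contra hcon
      push Not at hcon
      exact hτ (RingHom.ext hcon)
    have h2 : F.co τ 0 (F.ρ x v) = τ x * F.co τ 0 v := by
      conv_lhs => rw [F.hsum v]
      rw [map_sum, map_sum, Finset.sum_eq_single τ]
      · rw [Fin.sum_univ_one, map_smul, F.rho_e, map_smul, map_smul, F.co_e, if_pos ⟨rfl, rfl⟩,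
          smul_eq_mul, smul_eq_mul, mul_one, mul_comm]
      · intro τ' _ hτ'
        rw [Fin.sum_univ_one, map_smul, F.rho_e, map_smul, map_smul, F.co_e,
          if_neg (fun h => hτ' h.1.symm), smul_zero, smul_zero]
      · intro h; exact absurd (Finset.mem_univ _) h
    rw [hv, map_smul, smul_eq_mul] at h2
    have h3 : (σ x - τ x) * F.co τ 0 v = 0 := by linear_combination h2
    exact (mul_eq_zero.mp h3).resolve_left (sub_ne_zero.mpr (Ne.symm hx))
  conv_lhs => rw [F.hsum v]
  rw [Finset.sum_eq_single σ]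
  · rw [Fin.sum_univ_one]
  · intro τ _ hτ
    rw [Fin.sum_univ_one, h1 τ hτ, zero_smul]
  · intro h; exact absurd (Finset.mem_univ _) h

/-- change of the field -/
noncomputable def cmComp {A : AbVar} {K L : Type} [Field K] [NumberField K] [IsCMField K]
    [Field L] [NumberField L] [IsCMField L] (e : L ≃+* K) (C : CM A K) : CM A L where
  ρ x := C.ρ (e x)
  one v := by rw [map_one, C.one]
  mul x y v := by rw [map_mul, C.mul]
  add x y v := by rw [map_add, C.add]
  degree := by rw [← C.degree]; exact e.toRatAlgEquiv.toLinearEquiv.finrank_eq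
  endo x := C.endo (e x)
  rosati x := by
    have h : e (cmConj L x) = cmConj K (e x) := by
      have σ : K →+* ℂ := Classical.choice (inferInstance : Nonempty (K →+* ℂ))
      apply σ.injective
      have h1 : σ (cmConj K (e x)) = starRingEnd ℂ (σ (e x)) :=
        IsCMField.complexEmbedding_complexConj K σ (e x)
      have h2 : (σ.comp (e : L →+* K)) (cmConj L x) = starRingEnd ℂ ((σ.comp (e : L →+* K)) x) :=
        IsCMField.complexEmbedding_complexConj L (σ.comp (e : L →+* K)) x
      rw [h1]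
      exact h2
    rw [h]
    exact C.rosati (e x)

/-- the type of an elliptic curve -/
lemma exists_nfil {A : AbVar} {K : Type} [Field K] [NumberField K] (F : UF (pData A) K 1) :
    ∃ σ, ¬ A.IsFil (F.e σ 0) := by
  by_contra hcon
  push Not at hcon
  have σ : K →+* ℂ := Classical.choice (inferInstance : Nonempty (K →+* ℂ))
  exact (fil_conj F σ).mp (hcon _) (hcon σ)

/-- generation of an imaginary quadratic field -/
lemma quad_range {K : Type} [Field K] [NumberField K] (h2 : finrank ℚ K = 2) {x : K} {q : ℚ}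
    (hq : q < 0) (hx : x ^ 2 = (q : K)) (y : K) : ∃ a b : ℚ, y = a + b * x := by
  have hli : LinearIndependent ℚ ![(1 : K), x] := by
    rw [LinearIndependent.pair_iff]
    intro s t hst
    have h1 : (s : K) + (t : K) * x = 0 := by simpa [Algebra.smul_def] using hst
    have h3 : ((s ^ 2 : ℚ) : K) = ((t ^ 2 * q : ℚ) : K) := by
      push_cast
      rw [← hx]
      have : (s : K) = - ((t : K) * x) := eq_neg_of_add_eq_zero_left h1
      rw [this]; ring
    have h4 : s ^ 2 = t ^ 2 * q := by exact_mod_cast h3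
    have h5 : t = 0 := by
      by_contra ht
      have h6 : 0 < t ^ 2 := by positivity
      nlinarith [sq_nonneg s]
    subst h5
    refine ⟨?_, rfl⟩
    have : s ^ 2 = 0 := by rw [h4]; ring
    exact pow_eq_zero_iff two_ne_zero |>.mp this
  have hspan : Submodule.span ℚ (Set.range ![(1 : K), x]) = ⊤ :=
    hli.span_eq_top_of_card_eq_finrank (by rw [h2, Fintype.card_fin])
  have hy : y ∈ Submodule.span ℚ (Set.range ![(1 : K), x]) := by rw [hspan]; trivial
  rw [Submodule.mem_span_range_iff_exists_fun] at hy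
  obtain ⟨c, hc⟩ := hy
  refine ⟨c 0, c 1, ?_⟩
  rw [← hc, Fin.sum_univ_two]
  simp [Algebra.smul_def]

/-- isomorphic imaginary quadratic fields, with given embeddings -/
lemma quad_equiv {K L : Type} [Field K] [NumberField K] [Field L] [NumberField L]
    (hK : finrank ℚ K = 2) (hL : finrank ℚ L = 2) (h : SameIQ K L) (σ : K →+* ℂ) (τ : L →+* ℂ) :
    ∃ e : L ≃+* K, ∀ y, σ (e y) = τ y := by
  obtain ⟨q, hq, ⟨x, hx⟩, ⟨y, hy⟩⟩ := h
  have h1 : σ x ^ 2 = τ y ^ 2 := by
    rw [← map_pow, ← map_pow, hx, hy, map_ratCast, map_ratCast]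
  have hsur : ∀ z : L, ∃ w : K, σ w = τ z := by
    intro z
    obtain ⟨a, b, rfl⟩ := quad_range hL hq hy z
    rcases sq_eq_sq_iff_eq_or_eq_neg.mp h1 with h2 | h2
    · exact ⟨a + b * x, by
        rw [map_add, map_add, map_mul, map_mul, map_ratCast, map_ratCast, map_ratCast,
          map_ratCast, h2]⟩
    · exact ⟨a - b * x, by
        rw [map_add, map_sub, map_mul, map_mul, map_ratCast, map_ratCast, map_ratCast,
          map_ratCast, h2]; ring⟩
  have hsur' : ∀ w : K, ∃ z : L, τ z = σ w := by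
    intro z
    obtain ⟨a, b, rfl⟩ := quad_range hK hq hx z
    rcases sq_eq_sq_iff_eq_or_eq_neg.mp h1 with h2 | h2
    · exact ⟨a + b * y, by
        rw [map_add, map_add, map_mul, map_mul, map_ratCast, map_ratCast, map_ratCast,
          map_ratCast, h2]⟩
    · exact ⟨a - b * y, by
        rw [map_add, map_sub, map_mul, map_mul, map_ratCast, map_ratCast, map_ratCast,
          map_ratCast, h2]; ring⟩
  choose f hf using hsur
  choose g hg using hsur'
  exact ⟨{ toFun := f
           invFun := g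
           left_inv := fun z => τ.injective (by rw [hg, hf])
           right_inv := fun w => σ.injective (by rw [hf, hg])
           map_mul' := fun a b => σ.injective (by rw [map_mul, hf, hf, hf, map_mul])
           map_add' := fun a b => σ.injective (by rw [map_add, hf, hf, hf, map_add]) }, hf⟩

/-- elliptic curves with the same field are isogenous -/
theorem ell_iso (hExp : GAM.St_ExpAV) (hU : GAM.St_ExpU) {A B : AbVar} {K L : Type} [Field K]
    [NumberField K] [Field L] [NumberField L] (hK : finrank ℚ K = 2) (hL : finrank ℚ L = 2)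
    (hA : IsCMType A K) (hB : IsCMType B L) (h : SameIQ K L) :
    ∃ f, A.IsMor B f ∧ ∃ v, f v ≠ 0 := by
  obtain ⟨h1, ⟨C⟩⟩ := hA
  obtain ⟨h2, ⟨D⟩⟩ := hB
  obtain ⟨F, hF⟩ := exists_UF1 A K C
  obtain ⟨G, hG⟩ := exists_UF1 B L D
  obtain ⟨σ, hσ⟩ := exists_nfil F
  obtain ⟨τ, hτ⟩ := exists_nfil G
  obtain ⟨e, he⟩ := quad_equiv hK hL h σ τ
  obtain ⟨F', hF'⟩ := exists_UF1 A L (cmComp e C)
  have h3 : ¬ A.IsFil (F'.e τ 0) := by
    have h4 := eig_span F σ (F'.e τ 0) (fun x => by
      obtain ⟨y, rfl⟩ := e.surjective x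
      rw [he, ← F'.rho_e, hF, hF']
      rfl)
    intro h5
    apply hσ
    have h6 : F.co σ 0 (F'.e τ 0) ≠ 0 := by
      intro h7
      rw [h7, zero_smul] at h4
      exact Pool.Agent.Helper24.e_ne F' τ 0 h4
    intro a
    have h7 := h5 a
    rw [h4] at h7
    exact (mul_eq_zero.mp h7).resolve_left h6
  refine mor_of_types F' G hExp hU (fun σ hσ =>
    IsTotallyComplex.complexEmbedding_not_isReal σ (ComplexEmbedding.isReal_iff.mpr hσ)) ?_
  -- the two embeddings
  have hcard : Fintype.card (L →+* ℂ) = 2 := by rw [Embeddings.card, hL]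
  intro σ'
  have hne : ComplexEmbedding.conjugate τ ≠ τ := fun h =>
    IsTotallyComplex.complexEmbedding_not_isReal τ (ComplexEmbedding.isReal_iff.mpr h)
  have hor : σ' = τ ∨ σ' = ComplexEmbedding.conjugate τ := by
    classical
    by_contra hcon
    rw [not_or] at hcon
    have h4 : ({σ', τ, ComplexEmbedding.conjugate τ} : Finset (L →+* ℂ)).card = 3 :=
      Finset.card_eq_three.mpr ⟨_, _, _, hcon.1, hcon.2, Ne.symm hne, rfl⟩
    have h5 := Finset.card_le_univ ({σ', τ, ComplexEmbedding.conjugate τ} : Finset (L →+* ℂ))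
    rw [h4, hcard] at h5
    omega
  rcases hor with rfl | rfl
  · exact ⟨fun h => absurd h h3, fun h => absurd h hτ⟩
  · rw [fil_conj, fil_conj]
    exact ⟨fun _ => hτ, fun _ => h3⟩

end Pool.Agent.Helper7.CP
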