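import Pool.Agent.Helper7.CP.AVLat
import Pool.Agent.GAM.Der
import Pool.Agent.GAM.ExpR
import Pool.Agent.GAM.DelR
import Pool.Agent.GAM.Hol

/-!
Abelian varieties with complex multiplication by the same field and with the same CM type are
isogenous.
-/

open scoped ComplexConjugate

namespace Pool.Agent.Helper8.E.CP

open Module NumberField Pool.Agent.Helper7 Pool.Agent.Helper24 Pool.Agent.GPC Matrix
open Pool.Agent.Helper8.E

set_option linter.unusedSectionVars false

section iso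

variable {A B : AbVar} {K : Type} [Field K] [NumberField K] (F : UF (pData A) K 1)
  (G : UF (pData B) K 1)

/-- the quotient of the periods is algebraic -/
lemma per_quot (hExp : GAM.St_ExpAV) (hU : GAM.St_ExpU)
    (hc : ∀ σ : K →+* ℂ, ComplexEmbedding.conjugate σ ≠ σ)
    (hfil : ∀ σ, A.IsFil (F.e σ 0) ↔ B.IsFil (G.e σ 0))
    {p : (K →+* ℂ) → ℂ} {ε : (K →+* ℂ) → A.H1} (hp : Per F p ε)
    {q : (K →+* ℂ) → ℂ} {η : (K →+* ℂ) → B.H1} (hq : Per G q η) (σ : K →+* ℂ) :
    IsAlgebraic ℚ (q σ / p σ) := by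
  classical
  have : Fintype (CType F) := Fintype.ofFinite _
  have : Fintype (CType G) := Fintype.ofFinite _
  -- logarithmic derivatives agree on the CM type
  have h1 : ∀ (δ : Derivation ℚ ℂ ℂ) (σ : K →+* ℂ), ¬ A.IsFil (F.e σ 0) →
      δ (q σ) / q σ = δ (p σ) / p σ := by
    intro δ σ hσ
    have e1 := isExp_per F hp hExp δ
    have e2 := isExp_per G hq hExp δ
    have e3 : GAM.IsExp δ K (fun s : CType F => s.1) (fun s => δ (q s.1) / q s.1) := by
      let f : CType F ≃ CType G :=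
        { toFun := fun s => ⟨s.1, fun h => s.2 ((hfil s.1).mpr h)⟩
          invFun := fun s => ⟨s.1, fun h => s.2 ((hfil s.1).mp h)⟩
          left_inv := fun s => rfl
          right_inv := fun s => rfl }
      exact GAM.thm_ExpR (GAM.thm_DelR GAM.thm_Hol) K _ _ _ δ _ f e2
    have e4 := hU K (ccH F) (CType F) (fun s => s.1) δ _ _ (cmf_ccH F hc) (cmt F) e3 e1
    exact congrFun e4 ⟨σ, hσ⟩
  have h2 : ∀ (δ : Derivation ℚ ℂ ℂ) (σ : K →+* ℂ), δ (q σ) / q σ = δ (p σ) / p σ := by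
    intro δ σ
    by_cases hσ : A.IsFil (F.e σ 0)
    · have h3 : ¬ A.IsFil (F.e (ComplexEmbedding.conjugate σ) 0) := fun h => (fil_conj F σ).mp h hσ
      have h4 := h1 δ _ h3
      rw [per_conj F hp, per_conj G hq] at h4
      exact sub_right_injective h4
    · exact h1 δ σ hσ
  rw [GAM.thm_Der]
  intro δ
  have h3 := h2 δ σ
  have hp0 := hp.ne σ
  have hq0 := hq.ne σ
  have h4 : δ (q σ) = (q σ / p σ) * δ (p σ) := by
    rw [div_eq_div_iff hq0 hp0] at h3
    field_simp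
    linear_combination h3
  have h5 : q σ = (q σ / p σ) * p σ := (div_mul_cancel₀ _ hp0).symm
  have h6 : δ (q σ) = (q σ / p σ) * δ (p σ) + p σ * δ (q σ / p σ) := by
    conv_lhs => rw [h5]
    rw [δ.leibniz, smul_eq_mul, smul_eq_mul]
  have h7 : p σ * δ (q σ / p σ) = 0 := by linear_combination h4 - h6
  exact (mul_eq_zero.mp h7).resolve_left hp0

/-- projections of algebraic vectors are algebraic -/
lemma proj_alg (σ : K →+* ℂ) (v : A.H1) (hv : A.IsDeRham v) : A.IsDeRham (proj F.ρ σ v) := by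
  intro i
  have h3 : proj F.ρ σ v i = ∑ b, σ (dbas K b) * F.ρ (bas K b) v i := by
    rw [proj, LinearMap.sum_apply, Finset.sum_apply]
    rfl
  rw [h3]
  refine isAlg_sum _ _ fun b _ => (isAlg_emb _ _).mul ?_
  have h4 : F.ρ (bas K b) v i = ∑ j, v j * F.ρ (bas K b) (Pi.single j 1) i := by
    have h5 : v = ∑ j, v j • (Pi.single j (1 : ℂ) : Fin A.g ⊕ Fin A.g → ℂ) := by
      funext i; simp [Finset.sum_apply, Pi.single_apply]
    conv_lhs => rw [h5]
    rw [map_sum, Finset.sum_apply]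
    refine Finset.sum_congr rfl fun j _ => ?_
    rw [map_smul]
    rfl
  rw [h4]
  exact isAlg_sum _ _ fun j _ => (hv j).mul ((F.hρ _).alg j i)

/-- the morphism -/
theorem mor_of_types (hExp : GAM.St_ExpAV) (hU : GAM.St_ExpU)
    (hc : ∀ σ : K →+* ℂ, ComplexEmbedding.conjugate σ ≠ σ)
    (hfil : ∀ σ, A.IsFil (F.e σ 0) ↔ B.IsFil (G.e σ 0)) :
    ∃ f, A.IsMor B f ∧ ∃ v, f v ≠ 0 := by
  classical
  obtain ⟨p, ε, hp⟩ := exists_per F
  obtain ⟨q, η, hq⟩ := exists_per G
  let f : A.H1 →ₗ[ℂ] B.H1 := F.eb.constr ℂ (fun s => G.e s.1 s.2)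
  have hf : ∀ σ, f (F.e σ 0) = G.e σ 0 := fun σ => F.eb.constr_basis ℂ _ (σ, 0)
  have hb : ∀ v, A.IsBetti v → B.IsBetti (f v) := by
    intro v hv
    rw [← mem_pData_Q] at hv ⊢
    obtain ⟨x, hx⟩ := F.gen v hv
    rw [hx, Fin.sum_univ_one, F.rho_lam, map_sum]
    have h1 : ∑ σ : K →+* ℂ, f (σ (x 0) • F.e σ 0) = G.ρ (x 0) (G.lam 0) := by
      rw [G.rho_lam]
      refine Finset.sum_congr rfl fun σ _ => ?_
      rw [map_smul, hf]
    rw [h1]
    exact (G.hρ _).rat _ (G.lam_rat 0)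
  have hd : ∀ v, A.IsDeRham v → B.IsDeRham (f v) := by
    intro v hv i
    have h1 : v = ∑ σ, proj F.ρ σ v := by
      conv_lhs => rw [F.hsum v]
      refine Finset.sum_congr rfl fun σ _ => ?_
      rw [F.proj_eq]
    rw [h1, map_sum, Finset.sum_apply]
    refine isAlg_sum _ _ fun σ _ => ?_
    have h2 := proj_alg F σ v hv
    have h3 : proj F.ρ σ v = F.co σ 0 v • F.e σ 0 := by
      rw [F.proj_eq, Fin.sum_univ_one]
    rw [h3, hp.eq, smul_smul] at h2
    have h4 : IsAlgebraic ℚ (F.co σ 0 v * p σ) := by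
      obtain ⟨j, hj⟩ : ∃ j, ε σ j ≠ 0 := by
        by_contra hcon
        push Not at hcon
        have h5 := e_ne F σ 0
        apply h5
        rw [hp.eq]
        funext j
        rw [Pi.smul_apply, hcon j, smul_zero]
        rfl
      have h5 := (h2 j).mul (hp.alg σ j).inv
      rw [Pi.smul_apply, smul_eq_mul, mul_assoc, mul_inv_cancel₀ hj, mul_one] at h5
      exact h5
    rw [h3, map_smul, hf, hq.eq, Pi.smul_apply, Pi.smul_apply, smul_eq_mul, smul_eq_mul]
    have h5 : F.co σ 0 v * (q σ * η σ i) = (F.co σ 0 v * p σ) * ((q σ / p σ) * η σ i) := by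
      have := hp.ne σ
      field_simp
    rw [h5]
    exact h4.mul ((per_quot F G hExp hU hc hfil hp hq σ).mul (hq.alg σ i))
  refine ⟨f, ⟨f.isLinear, hb, hd, hom_fil A B f f.isLinear hb hd⟩, ?_⟩
  have σ : K →+* ℂ := Classical.choice (inferInstance : Nonempty (K →+* ℂ))
  refine ⟨F.e σ 0, ?_⟩
  rw [hf]
  exact e_ne G σ 0

end iso

end Pool.Agent.Helper8.E.CP
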