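import Pool.Agent.Helper7.CP.Assemble
import Pool.Agent.Helper8.E.LinkIso

/-!
Grothendieck classes are Hodge classes, for products of factors of `GL_2`-type and of CM type,
provided the relations between the weights of the CM type factors are balanced.
-/

namespace Pool.Agent.Helper8.E.CP

open Module NumberField LieAlgebra Pool.Agent.Helper7 Pool.Agent.Helper24 Pool.Agent.GPC Matrix
open Pool.Agent.Helper8 (zero_of_type)
open Pool.Agent.Helper8.E
open Pool.Agent.Helper8.D (Sym QF ent symI hG hG_sym hG_idem exists_QF)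

attribute [local instance 100] LieRing.ofAssociativeRing

set_option linter.unusedSectionVars false

variable {I : Type} [Fintype I] (A : I → AbVar) (n : I → ℕ) (K : I → Type)
  [∀ i, Field (K i)] [∀ i, NumberField (K i)]

/-- the theorem for families of factors of real type and of CM type -/
theorem hodge_of_factors2 [DecidableEq I] (T : Finset I)
    (hT : ∀ i ∈ T, ∀ σ : K i →+* ℂ, ComplexEmbedding.conjugate σ ≠ σ)
    (F : ∀ i, Fac5 (pData (A i)) (K i)) (hFT : ∀ i, (F i).isT ↔ i ∈ T)
    (hFS : ∀ i, (F i).isS ↔ i ∉ T)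
    (k : ℕ) (α : Form A n (2 * k)) (hα : IsGrothendieck A n k α)
    (hrel : ∀ z : Emb K → ℤ, (∀ t, z (conjT t) = - z t) → (∀ t, t.1 ∉ T → z t = 0) →
      (∀ X, IsInv n (fun i => pData (A i)) (α : MultilinearMap ℂ
        (fun _ : Fin (2 * k) => HW (fun i => Fin (A i).g ⊕ Fin (A i).g) n) ℂ) X →
        ∑ t, (z t : ℂ) * ch (fun i => pData (A i)) (FU (fun i => pData (A i)) F) t X = 0) →
      ∑ t, (z t : ℂ) * ch (fun i => pData (A i)) (FU (fun i => pData (A i)) F) t (hG A) = 0) :
    IsHodge A n k α := by
  classical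
  obtain ⟨hα1, hα2⟩ := hα
  refine ⟨hα2, fun v J hJ hv => ?_⟩
  have hB : ∀ v : Fin (2 * k) → HW (fun i => Fin (A i).g ⊕ Fin (A i).g) n,
      (∀ r, IsRatP n (fun i => pData (A i)) (v r)) →
      ∃ q : ℚ, (α : MultilinearMap ℂ
        (fun _ : Fin (2 * k) => HW (fun i => Fin (A i).g ⊕ Fin (A i).g) n) ℂ) v =
          (2 * Real.pi * Complex.I) ^ k * q := by
    intro v hv
    apply hα2
    intro r i m
    exact (mem_pData_Q _ _).mp (hv r i m)
  have hA : ∀ v : Fin (2 * k) → HW (fun i => Fin (A i).g ⊕ Fin (A i).g) n,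
      (∀ r i m j, IsAlgebraic ℚ (v r i m j)) → IsAlgebraic ℚ ((α : MultilinearMap ℂ
        (fun _ : Fin (2 * k) => HW (fun i => Fin (A i).g ⊕ Fin (A i).g) n) ℂ) v) := hα1
  have hϖ := Complex.two_pi_I_ne_zero
  have hTS : ∀ i, (F i).isT ∨ (F i).isS := fun i => by
    by_cases h : i ∈ T
    · exact Or.inl ((hFT i).mpr h)
    · exact Or.inr ((hFS i).mpr h)
  have hnW : ∀ i, ¬ (F i).isW := by
    intro i hi
    have key : ∀ f : Fac5 (pData (A i)) (K i), f.isT ∨ f.isS → ¬ f.isW := by
      intro f hf
      cases f with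
      | S F' h' => exact fun h => h.elim
      | W F' h' => exact hf.elim False.elim False.elim
      | Q F' => exact fun h => h.elim
      | R F' => exact fun h => h.elim
      | T F' => exact fun h => h.elim
    exact key _ (hTS i) hi
  have hnQ : ∀ i, ¬ (F i).isQ := by
    intro i hi
    have key : ∀ f : Fac5 (pData (A i)) (K i), f.isT ∨ f.isS → ¬ f.isQ := by
      intro f hf
      cases f with
      | S F' h' => exact fun h => h.elim
      | W F' h' => exact hf.elim False.elim False.elim
      | Q F' => exact hf.elim False.elim False.elim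
      | R F' => exact fun h => h.elim
      | T F' => exact fun h => h.elim
    exact key _ (hTS i) hi
  have hnR : ∀ i, ¬ (F i).isR := by
    intro i hi
    have key : ∀ f : Fac5 (pData (A i)) (K i), f.isT ∨ f.isS → ¬ f.isR := by
      intro f hf
      cases f with
      | S F' h' => exact fun h => h.elim
      | W F' h' => exact hf.elim False.elim False.elim
      | Q F' => exact fun h => h.elim
      | R F' => exact hf.elim False.elim False.elim
      | T F' => exact fun h => h.elim
    exact key _ (hTS i) hi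
  have hHT : ∀ i, ¬ (F i).isH → i ∈ T := by
    intro i hi
    rcases (F i).not_H hi with h | h
    · exact absurd h (hnW i)
    · exact (hFT i).mp h
  have hSH : ∀ i, i ∉ T → (F i).isH := fun i hi => by
    by_contra hcon
    exact hi (hHT i hcon)
  have hcx : ∀ i, (F i).isW ∨ (F i).isQ ∨ (F i).isR → ∀ σ : K i →+* ℂ,
      ComplexEmbedding.conjugate σ ≠ σ := by
    rintro i (h | h | h)
    · exact absurd h (hnW i)
    · exact absurd h (hnQ i)
    · exact absurd h (hnR i)
  have h1 := assemble2 n (fun i => pData (A i)) (α : MultilinearMap ℂ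
        (fun _ : Fin (2 * k) => HW (fun i => Fin (A i).g ⊕ Fin (A i).g) n) ℂ) F hϖ hB hA
    (fun i hi σ => hT i (hHT i hi) σ) (hG A) (hG_sym A) rfl
    (hodge_in n (fun i => pData (A i)) _ F hϖ hB hA (hG A) (hG_sym A) rfl hcx
      (fun s s' hs hs' M _ hM => link_S n (fun i => pData (A i)) _ F hϖ hB hA
        (t := (s, 0)) (t' := (s', 0)) hs hs' M hM (hG A)
        (fun i j f hf v => (hod_comm f hf v).symm))
      (fun s _ _ hs => absurd hs (hnQ _)) (fun s _ hs => absurd hs (hnW _))
      (fun s hs => absurd hs (hnR _)))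
    (fun z hz1 hz2 hz3 => hrel z hz1 (fun t ht => hz2 t (hSH _ ht)) hz3)
  refine zero_of_type _ (lift n (hG A).1) (fun w => ?_) h1 v J hJ (fun r hr => ?_)
  · funext i m
    rw [lift_apply, lift_apply]
    exact hG_idem A i _
  · funext i m
    rw [lift_apply]
    exact (hod_fil (A i)).mp (hv r hr i m)

end Pool.Agent.Helper8.E.CP
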