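import Pool.Agent.Helper7.CP.Simple
import Pool.Agent.Helper39.AF.Transfer

/-!
Grothendieck classes are Hodge classes, for abelian varieties all of whose simple factors have real
multiplication or complex multiplication by an abelian number field.
-/

namespace Pool.Agent.Helper7.CP

open Module NumberField Pool.Agent.GPC Pool.Agent.Helper7

/-- the theorem, given the statements on exponents -/
theorem main_C (hBal : GAM.St_Bal) (hExp : GAM.St_ExpAV) (X : AbVar)
    (hX : ∀ B : AbVar, B.IsSimpleFactor X →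
      (∃ (K : Type) (_ : Field K) (_ : NumberField K), IsRMType B K) ∨
      ∃ (K : Type) (_ : Field K) (_ : NumberField K) (ρ : K → B.H1 → B.H1), B.IsAbelianCM K ρ)
    (k : ℕ) (α : X.Class (2 * k)) (hα : X.IsGrothendieckClass k α) : X.IsInFil k α := by
  classical
  obtain ⟨I, _, A, n, Φ, ι, hΦ, hg, hs, hA, hn, -, hι⟩ := Helper39.AF.exists_decomp X
  have hfac : ∀ i, (A i).IsSimpleFactor X := by
    intro i
    refine ⟨hs i, ι i, (hι i).1, ?_⟩
    by_contra hcon
    push Not at hcon
    let u : (A i).H1 := Pi.single (Sum.inl ⟨0, Nat.pos_of_ne_zero (hg i)⟩) 1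
    have h1 : ∀ v, (pData (A i)).ψ u v = 0 := by
      intro v
      have h2 := (hι i).2 u v
      have h3 : X.pol (ι i u) (ι i v) = 0 := by
        rw [hcon u, hcon v]
        simp [AbVar.pol]
      rw [h3] at h2
      exact h2.symm
    have h4 := congrFun ((pData (A i)).hψnd u h1) (Sum.inl ⟨0, Nat.pos_of_ne_zero (hg i)⟩)
    have h5 : u (Sum.inl ⟨0, Nat.pos_of_ne_zero (hg i)⟩) = 1 := Pi.single_eq_same _ _
    rw [h5] at h4
    exact one_ne_zero h4
  have hK : ∀ i, ∃ (K : Type) (_ : Field K) (_ : NumberField K), IsRMType (A i) K ∨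
      (IsCMType (A i) K ∧ IsGalois ℚ K ∧ ∀ g g' : K ≃ₐ[ℚ] K, g * g' = g' * g) := by
    intro i
    rcases hX (A i) (hfac i) with ⟨K, h1, h2, h⟩ | ⟨K, h1, h2, ρ, h⟩
    · exact ⟨K, h1, h2, Or.inl h⟩
    · obtain ⟨K', h3, h4, h5⟩ := cm_of_abelian h (hs i)
      exact ⟨K', h3, h4, Or.inr h5⟩
  choose K iF iN hK using hK
  have h := Pool.Agent.Helper8.E.CP.hodge_ST A n K hBal hExp
    (Finset.univ.filter fun i => ¬ IsRMType (A i) (K i))
    (fun i hi => by
      by_contra hcon
      exact hi (Finset.mem_filter.mpr ⟨Finset.mem_univ _, hcon⟩))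
    (fun i hi => ((hK i).resolve_left (Finset.mem_filter.mp hi).2).1)
    (fun i hi => ((hK i).resolve_left (Finset.mem_filter.mp hi).2).2.1)
    (fun i hi => ((hK i).resolve_left (Finset.mem_filter.mp hi).2).2.2) k _
    (Helper39.AF.grothendieck_transfer hΦ α hα)
  rintro v ⟨s, hs1, hs2⟩
  have h1 := h.2 (fun r => Φ (v r)) s hs1 (fun r hr => (hΦ.fil _).mp (hs2 r hr))
  have h2 : (α.compLinearMap Φ.symm.toLinearMap) (fun r => Φ (v r)) = α v := by
    rw [AlternatingMap.compLinearMap_apply]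
    congr 1
    funext r
    exact Φ.symm_apply_apply (v r)
  rw [h2] at h1
  exact h1

end Pool.Agent.Helper7.CP
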