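import Pool.Agent.Helper7.CP.Ell
import Pool.Agent.Helper7.CP.Intr

/-!
Grothendieck classes are divisorial, for abelian varieties all of whose simple factors have real
multiplication or are elliptic curves.
-/

namespace Pool.Agent.Helper7.CP

open Module NumberField Pool.Agent.GPC Pool.Agent.Helper7

/-- a factor of a decomposition is a simple factor -/
lemma simpleFactor_of {X B : AbVar} {f : B.H1 → X.H1} (hs : B.IsSimple) (hg : B.g ≠ 0)
    (hf : B.IsMor X f ∧ ∀ u v, X.pol (f u) (f v) = B.pol u v) : B.IsSimpleFactor X := by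
  refine ⟨hs, f, hf.1, ?_⟩
  by_contra hcon
  push Not at hcon
  let u : B.H1 := Pi.single (Sum.inl ⟨0, Nat.pos_of_ne_zero hg⟩) 1
  have h1 : ∀ v, (pData B).ψ u v = 0 := by
    intro v
    have h2 := hf.2 u v
    have h3 : X.pol (f u) (f v) = 0 := by
      rw [hcon u, hcon v]
      simp [AbVar.pol]
    rw [h3] at h2
    exact h2.symm
  have h4 := congrFun ((pData B).hψnd u h1) (Sum.inl ⟨0, Nat.pos_of_ne_zero hg⟩)
  have h5 : u (Sum.inl ⟨0, Nat.pos_of_ne_zero hg⟩) = 1 := Pi.single_eq_same _ _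
  rw [h5] at h4
  exact one_ne_zero h4

/-- the theorem, given the statements on exponents -/
theorem main_D (hExp : GAM.St_ExpAV) (hU : GAM.St_ExpU) (X : AbVar)
    (hX : ∀ B : AbVar, B.IsSimpleFactor X →
      (∃ (K : Type) (_ : Field K) (_ : NumberField K), IsRMType B K) ∨ B.g = 1)
    (k : ℕ) (α : X.Class (2 * k)) (hα : X.IsGrothendieckClass k α) :
    X.IsDivisorialClass k α := by
  classical
  obtain ⟨I, _, A, n, Φ, ι, hΦ, hg, hs, hA, hn, -, hι⟩ := Helper39.AF.exists_decomp X
  have hfac : ∀ i, (A i).IsSimpleFactor X := fun i => simpleFactor_of (hs i) (hg i) (hι i)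
  have hK : ∀ i, ∃ (K : Type) (_ : Field K) (_ : NumberField K), IsRMType (A i) K ∨
      (IsCMType (A i) K ∧ finrank ℚ K = 2 ∧ (A i).g = 1) := by
    intro i
    rcases hX (A i) (hfac i) with ⟨K, h1, h2, h⟩ | h
    · exact ⟨K, h1, h2, Or.inl h⟩
    · obtain ⟨K, h1, h2, h3⟩ := ell_cases (A i) (hs i) h
      rcases h3 with h3 | ⟨h3, h4⟩
      · exact ⟨K, h1, h2, Or.inl h3⟩
      · exact ⟨K, h1, h2, Or.inr ⟨h3, h4, h⟩⟩
  choose K iF iN hK using hK
  have hT : ∀ i ∈ Finset.univ.filter (fun i => ¬ IsRMType (A i) (K i)),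
      IsCMType (A i) (K i) ∧ finrank ℚ (K i) = 2 ∧ (A i).g = 1 := fun i hi =>
    (hK i).resolve_left (Finset.mem_filter.mp hi).2
  have hfam : PrimeFamCM A n K (Finset.univ.filter fun i => ¬ IsRMType (A i) (K i)) k := by
    have key : ∀ i ∈ Finset.univ.filter (fun i => ¬ IsRMType (A i) (K i)),
        ∀ j ∈ Finset.univ.filter (fun i => ¬ IsRMType (A i) (K i)), i ≠ j →
        ¬ SameIQ (K i) (K j) := by
      intro i hi j hj hij h
      obtain ⟨f, hf, v, hv⟩ := ell_iso hExp hU (hT i hi).2.1 (hT j hj).2.1 (hT i hi).1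
        (hT j hj).1 h
      exact hv (hA i j hij f hf v)
    refine ⟨fun i _ => hs i, fun i hi => Or.inl (hT i hi).2.2, fun i hi j hj hij _ =>
      ⟨(hT i hi).2.2, key i hi j hj hij⟩, fun i hi h => absurd (hT i hi).2.2 h,
      fun i hi j hj hij _ _ _ _ h => ?_⟩
    exact absurd (h (Or.inl (hT i hi).2.2)) (key i hi j hj hij)
  have h := (Helper28.GPC.main_HK A n K
    (fun i l hl hl0 => (A i).periods_not_proportional l hl hl0)
    (Finset.univ.filter fun i => IsRMType (A i) (K i)) ∅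
    (Finset.univ.filter fun i => ¬ IsRMType (A i) (K i))
    (fun i => by
      by_cases hi : IsRMType (A i) (K i)
      · exact Or.inl (Finset.mem_filter.mpr ⟨Finset.mem_univ _, hi⟩)
      · exact Or.inr (Or.inr (Finset.mem_filter.mpr ⟨Finset.mem_univ _, hi⟩)))
    (fun i hi => (Finset.mem_filter.mp hi).2) (fun i hi => absurd hi (Finset.notMem_empty i))
    (fun i hi => (hT i hi).1) (Or.inl rfl) k (Or.inr (Or.inr hfam)) _).mp
    (Helper39.AF.grothendieck_transfer hΦ α hα)
  have h3 := Helper39.AF.divisorial_transfer hΦ hι _ h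
  have h4 : (α.compLinearMap Φ.symm.toLinearMap).compLinearMap Φ.toLinearMap = α := by
    ext v
    simp [AlternatingMap.compLinearMap_apply]
  rwa [h4] at h3

end Pool.Agent.Helper7.CP
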