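import Pool.Agent.Helper7.CP.Modular
import Pool.Agent.GAM.Asm

/-!
Grothendieck classes are divisorial on abelian varieties all of whose simple factors are of
`GL_2`-type (over the algebraic closure) or elliptic curves.
-/

namespace Pool.Agent.Helper7.CP

open Pool.Agent.GPC

theorem modular_products (X : AbVar)
    (hX : ∀ B : AbVar, B.IsSimpleFactor X →
      (∃ (K : Type) (_ : Field K) (_ : NumberField K), IsRMType B K) ∨ B.g = 1)
    (k : ℕ) (α : X.Class (2 * k)) : X.IsGrothendieckClass k α ↔ X.IsDivisorialClass k α :=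
  ⟨main_D GAM.All.ExpAV_ GAM.All.ExpU_ X hX k α,
    fun h => Pool.Agent.Helper39.AF.grothendieck_of_divisorial h⟩

end Pool.Agent.Helper7.CP
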