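import Pool.Agent.Helper7.CP.Final

/-!
Periods of factors of CM type and the relations between them.
-/

namespace Pool.Agent.Helper8.E.CP

open Module NumberField Pool.Agent.Helper7 Pool.Agent.Helper24 Pool.Agent.GPC Matrix
open Pool.Agent.Helper8.E
open Pool.Agent.Helper8.D (symI hG hG_sym)

set_option linter.unusedSectionVars false

section single

variable {κ : Type} [Fintype κ] [DecidableEq κ] {ϖ : ℂ} {P : PData κ ϖ} {K : Type} [Field K]
  [NumberField K] (F : UF P K 1)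

/-- algebraic eigenvectors with their periods -/
structure Per (p : (K →+* ℂ) → ℂ) (ε : (K →+* ℂ) → κ → ℂ) : Prop where
  ne : ∀ σ, p σ ≠ 0
  alg : ∀ σ j, IsAlgebraic ℚ (ε σ j)
  eq : ∀ σ, F.e σ 0 = p σ • ε σ

lemma exists_per : ∃ p ε, Per F p ε := by
  classical
  have h : ∀ σ : K →+* ℂ, ∃ (c : ℂ) (u : κ → ℂ), c ≠ 0 ∧ (∀ j, IsAlgebraic ℚ (u j)) ∧
      F.e σ 0 = c • u := by
    intro σ
    have hne := e_ne F σ 0
    obtain ⟨j, hj⟩ : ∃ j, proj F.ρ σ (Pi.single j (1 : ℂ)) ≠ 0 := by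
      by_contra hcon
      push Not at hcon
      apply hne
      have h1 : F.e σ 0 = ∑ j, F.e σ 0 j • (Pi.single j (1 : ℂ) : κ → ℂ) := by
        funext i; simp [Finset.sum_apply, Pi.single_apply]
      have h2 : F.e σ 0 = proj F.ρ σ (F.e σ 0) := by rw [F.proj_e, if_pos rfl]
      rw [h2, h1, map_sum]
      exact Finset.sum_eq_zero fun j _ => by rw [map_smul, hcon, smul_zero]
    have h1 := F.proj_eq σ (Pi.single j (1 : ℂ))
    rw [Fin.sum_univ_one] at h1
    have hc : F.co σ 0 (Pi.single j (1 : ℂ)) ≠ 0 := by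
      intro h0
      rw [h0, zero_smul] at h1
      exact hj h1
    refine ⟨(F.co σ 0 (Pi.single j (1 : ℂ)))⁻¹, proj F.ρ σ (Pi.single j (1 : ℂ)), inv_ne_zero hc,
      fun i => ?_, ?_⟩
    · have h3 : proj F.ρ σ (Pi.single j (1 : ℂ)) i =
          ∑ b, σ (dbas K b) * F.ρ (bas K b) (Pi.single j (1 : ℂ)) i := by
        rw [proj, LinearMap.sum_apply, Finset.sum_apply]
        rfl
      rw [h3]
      exact isAlg_sum _ _ fun b _ =>
        (isAlg_emb _ _).mul ((F.hρ _).alg j i)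
    · rw [h1, smul_smul, inv_mul_cancel₀ hc, one_smul]
  choose p ε h1 h2 h3 using h
  exact ⟨p, ε, h1, h2, h3⟩

/-- the weights of the comparison operators are the logarithmic derivatives of the periods -/
lemma tw_N {p : (K →+* ℂ) → ℂ} {ε : (K →+* ℂ) → κ → ℂ} (hp : Per F p ε)
    (D : Derivation ℚ ℂ ℂ) (σ : K →+* ℂ) : tw F σ (P.N D) = D (p σ) / p σ := by
  classical
  have hcomm : F.Comm (P.N D) := fun x v => (F.hρ x).comm_N D v
  have h1 : P.N D (F.lam 0) = ∑ σ, D (p σ) • ε σ := by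
    have e1 : P.N D (F.lam 0) = nabla (Pi.basisFun ℂ κ) D (F.lam 0) := by
      rw [PData.N, opN_apply, nabla_eq_zero P.bB D, sub_zero]
      intro k
      obtain ⟨q, hq⟩ := P.repr_rat _ (F.lam_rat 0) k
      rw [hq]
      exact isAlgebraic_ratCast ℚ q
    rw [e1, F.sum_e 0, nabla_sum]
    refine Finset.sum_congr rfl fun σ _ => ?_
    rw [hp.eq, nabla_smul, nabla_eq_zero, smul_zero, add_zero]
    intro k
    rw [Pi.basisFun_repr]
    exact hp.alg σ k
  have h2 : P.N D (F.lam 0) = ∑ σ, P.N D (F.e σ 0) := by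
    conv_lhs => rw [F.sum_e 0]
    rw [map_sum]
  have h3 := congrArg (F.co σ 0) (h1.symm.trans h2)
  rw [map_sum, map_sum] at h3
  have h4 : ∀ τ, ε τ = (p τ)⁻¹ • F.e τ 0 := fun τ => by
    rw [hp.eq, smul_smul, inv_mul_cancel₀ (hp.ne τ), one_smul]
  have h5 : ∑ τ, F.co σ 0 (D (p τ) • ε τ) = D (p σ) / p σ := by
    rw [Finset.sum_eq_single σ]
    · rw [h4, map_smul, map_smul, co_e_same, if_pos rfl, smul_eq_mul, smul_eq_mul, mul_one,
        div_eq_mul_inv]
    · intro τ _ hτ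
      rw [h4, map_smul, map_smul, F.co_e, if_neg (fun h => hτ h.1.symm), smul_zero, smul_zero]
    · intro h; exact absurd (Finset.mem_univ _) h
  have h6 : ∑ τ, F.co σ 0 (P.N D (F.e τ 0)) = F.co σ 0 (P.N D (F.e σ 0)) := by
    rw [Finset.sum_eq_single σ]
    · intro τ _ hτ
      rw [act_one F _ hcomm τ, map_smul, F.co_e, if_neg (fun h => hτ h.1.symm), smul_zero]
    · intro h; exact absurd (Finset.mem_univ _) h
  rw [h5, h6] at h3
  rw [tw_apply, Fin.sum_univ_one, ← h3, Nat.cast_one, div_one]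

end single

section family

variable {I : Type} [Fintype I] [DecidableEq I] (n : I → ℕ)
  {κ : I → Type} [∀ i, Fintype (κ i)] [∀ i, DecidableEq (κ i)] {ϖ : ℂ}
  (P : ∀ i, PData (κ i) ϖ)
  {K : I → Type} [∀ i, Field (K i)] [∀ i, NumberField (K i)]
  {k : ℕ} (α : MultilinearMap ℂ (fun _ : Fin (2 * k) => HW κ n) ℂ)
  (F : ∀ i, Fac5 (P i) (K i)) (N : Finset I)
  (hϖ : ϖ ≠ 0)
  (hB : ∀ v : Fin (2 * k) → HW κ n, (∀ r, IsRatP n P (v r)) → ∃ q : ℚ, α v = ϖ ^ k * q)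
  (hA : ∀ v : Fin (2 * k) → HW κ n, (∀ r i m j, IsAlgebraic ℚ (v r i m j)) →
      IsAlgebraic ℚ (α v))

lemma sum_N (f : Emb K → ℂ) (hf : ∀ t, t.1 ∉ N → f t = 0) :
    ∑ t, f t = ∑ t : Emb (fun i : {i // i ∈ N} => K i.1), f ⟨t.1.1, t.2⟩ := by
  rw [Fintype.sum_sigma, Fintype.sum_sigma]
  rw [← Finset.sum_subset (Finset.subset_univ N) (fun i _ hi =>
    Finset.sum_eq_zero fun σ _ => hf ⟨i, σ⟩ hi)]
  exact (Finset.sum_coe_sort N (fun i => ∑ σ : K i →+* ℂ, f ⟨i, σ⟩)).symm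

include hϖ hB hA in
/-- a relation between the weights gives relations between the logarithmic derivatives of the
periods and their conjugates -/
theorem rel_N (z : Emb K → ℤ) (hz : ∀ t, z (conjT t) = - z t) (hz0 : ∀ t, t.1 ∉ N → z t = 0)
    (hzX : ∀ X, IsInv n P α X → ∑ t, (z t : ℂ) * ch P (FU P F) t X = 0)
    (τ : ℂ ≃+* ℂ) (D : Derivation ℚ ℂ ℂ) :
    ∑ t, (z (actT τ t) : ℂ) * tw (FU P F t.1) t.2 ((P t.1).N D) = 0 := by
  have hmem : (fun t : Emb (fun i : {i // i ∈ N} => K i.1) => (z ⟨t.1.1, t.2⟩ : ℚ)) ∈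
      relE n P α F N := by
    rw [mem_relE]
    refine ⟨fun t => ?_, fun X hX _ => ?_⟩
    · have h1 := hz ⟨t.1.1, t.2⟩
      have h2 : z ⟨(conjT t).1.1, (conjT t).2⟩ = - z ⟨t.1.1, t.2⟩ := h1
      show (z ⟨(conjT t).1.1, (conjT t).2⟩ : ℚ) = - (z ⟨t.1.1, t.2⟩ : ℚ)
      rw [h2]
      push_cast
      ring
    · have h1 := hzX X hX
      rw [sum_N N _ (fun t ht => by rw [hz0 t ht]; simp)] at h1
      rw [← h1]
      refine Finset.sum_congr rfl fun t _ => ?_
      rw [Rat.cast_intCast]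
      rfl
  have hst := (mem_relE n P α F N _).mp (relE_stable n P α F N τ _ hmem)
  have hall := lin_of_rat n P α hϖ hB
    (∑ t : Emb (fun i : {i // i ∈ N} => K i.1), (z ⟨(actT τ t).1.1, (actT τ t).2⟩ : ℂ) •
      ((tw (FU P F t.1.1) t.2) ∘ₗ (LinearMap.proj t.1.1) ∘ₗ
          (LinearMap.fst ℂ ((i : I) → Module.End ℂ (κ i → ℂ)) ℂ))) (fun X hX hr => by
      have h1 := hst.2 X hX hr
      rw [LinearMap.sum_apply, ← h1]
      refine Finset.sum_congr rfl fun t _ => ?_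
      rw [LinearMap.smul_apply, smul_eq_mul, Rat.cast_intCast]
      rfl) _ (isInv_N n P α hϖ hB hA D)
  rw [sum_N N _ (fun t ht => by
    rw [hz0 (actT τ t) ht]; simp)]
  rw [LinearMap.sum_apply] at hall
  rw [← hall]
  refine Finset.sum_congr rfl fun t _ => ?_
  rw [LinearMap.smul_apply, smul_eq_mul]
  rfl

end family

end Pool.Agent.Helper8.E.CP
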